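import Pool.Agent.H82R3.AR.MsC
import Pool.Agent.W164.RC.Lower

/-!
The characters of finite order of `(ℤ[i]/q)ˣ` (infinity type zero): the inequality for the zeros with
a gain, and the lower bound for the number of the zeros.
(After `Pool.Agent.H82R3.AR.MsC` and `Pool.Agent.W164.RC.Lower`.)
-/

open Complex Filter Topology Set MeasureTheory
open H370 (zset mult NN Nd Ns)

set_option autoImplicit false
set_option maxHeartbeats 4000000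

namespace Pool.Agent.V7H44.HL

open Pool.Agent.H304R3.HK (tc UH bb one_le_norm_tc)
open Pool.Agent.H82R3.AR (FA FN mem_FA mem_FN card_FN FN_sub HC LH aH goodH core_ms cond_ms prim_ex
  fa_card)
open H385 (ZI RQ im1 chiZ phiQ nrm Rw Rw_nonneg I1_nonneg Rw_const_d2)

/-- the number of the residue classes prime to `q` is large -/
theorem phi_ge : ∃ c : ℝ, 0 < c ∧ ∀ q : ZI, q ≠ 0 → c * ‖tc q‖ ≤ (phiQ q : ℝ) := by
  obtain ⟨C1, hC1, hdiv⟩ := Pool.Agent.H369R2.divisor_bound (1 / 4) (by norm_num)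
  refine ⟨(4 * C1 ^ 2)⁻¹, by positivity, fun q hq => ?_⟩
  set N := nrm q with hN
  have hN1 : 1 ≤ N := H385.H10.nrm_pos hq
  have hN1' : (1 : ℝ) ≤ N := by exact_mod_cast hN1
  have hN0 : (0 : ℝ) < N := by linarith
  have hnq : ((nrm q : ℕ) : ℝ) = ‖tc q‖ ^ 2 := H385.nrm_eq q
  have hphi : (N : ℝ) ≤ ((H385.H10.Dv q).card : ℝ) * (phiQ q : ℝ) := by
    exact_mod_cast H385.H10.phi_lower q hq
  have hτb : ((H385.H10.Dv q).card : ℝ) ≤ 4 * (C1 * (N : ℝ) ^ (1 / 4 : ℝ)) ^ 2 := by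
    have h0 : ((H385.H10.Dv q).card : ℝ) ≤ ((4 * (nrm q).divisors.card ^ 2 : ℕ) : ℝ) := by
      exact_mod_cast H385.H10.card_Dv q hq
    have h2 := hdiv N hN1
    have h3 : ((N.divisors.card : ℕ) : ℝ) ^ 2 ≤ (C1 * (N : ℝ) ^ (1 / 4 : ℝ)) ^ 2 :=
      pow_le_pow_left₀ (Nat.cast_nonneg _) h2 2
    push_cast at h0
    rw [hN] at h3 ⊢
    linarith
  have hr : ((N : ℝ) ^ (1 / 4 : ℝ)) ^ 2 = ‖tc q‖ := by
    rw [← Real.rpow_natCast, ← Real.rpow_mul hN0.le, hN, hnq, ← Real.rpow_natCast,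
      ← Real.rpow_mul (norm_nonneg _)]
    norm_num
  have hQ1 : 1 ≤ ‖tc q‖ := one_le_norm_tc hq
  have hphi0 : (0 : ℝ) ≤ phiQ q := Nat.cast_nonneg _
  have h4 : (N : ℝ) ≤ 4 * C1 ^ 2 * ‖tc q‖ * phiQ q := by
    refine hphi.trans ((mul_le_mul_of_nonneg_right hτb hphi0).trans (le_of_eq ?_))
    rw [mul_pow, hr]
    ring
  rw [hN, hnq, sq] at h4
  have h5 : ‖tc q‖ ≤ 4 * C1 ^ 2 * phiQ q := by
    have h6 : ‖tc q‖ * ‖tc q‖ ≤ (4 * C1 ^ 2 * phiQ q) * ‖tc q‖ := by linarith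
    exact le_of_mul_le_mul_right h6 (by linarith)
  have h8 : 0 < 4 * C1 ^ 2 := by positivity
  rw [inv_mul_le_iff₀ h8]
  exact h5

/-- the choice of the primitive characters -/
theorem exists_pr0 : ∃ (cd : (q : ZI) → MulChar (RQ q) ℂ → ZI)
    (pr : (q : ZI) → MulChar (RQ q) ℂ → (ZI →* ℂ)),
    ∀ q : ZI, q ≠ 0 → ∀ χ ∈ FN q, cd q χ ∣ q ∧ HC (cd q χ) (pr q χ) ∧
      ∀ a : ZI, IsCoprime a q → pr q χ a = chiZ q χ a := by
  classical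
  have h1 : ∀ (q : ZI) (χ : MulChar (RQ q) ℂ), ∃ (d : ZI) (ψ : ZI →* ℂ),
      q ≠ 0 → χ ∈ FN q → d ∣ q ∧ HC d ψ ∧ ∀ a : ZI, IsCoprime a q → ψ a = chiZ q χ a := by
    intro q χ
    by_cases hq : q ≠ 0
    · by_cases hχ : χ ∈ FN q
      · obtain ⟨h2, h3⟩ := (mem_FN q hq χ).1 hχ
        obtain ⟨d, ψ, h⟩ := prim_ex q hq χ h2 h3
        exact ⟨d, ψ, fun _ _ => h⟩
      · exact ⟨0, 1, fun _ h => absurd h hχ⟩
    · exact ⟨0, 1, fun h => absurd h hq⟩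
  choose cd pr hcp using h1
  exact ⟨cd, pr, fun q hq χ hχ => hcp q χ hq hχ⟩

/-- the inequality for the non-trivial characters, with a gain `σ` -/
theorem zero_slack (cd : (q : ZI) → MulChar (RQ q) ℂ → ZI)
    (pr : (q : ZI) → MulChar (RQ q) ℂ → (ZI →* ℂ))
    (hprim : ∀ q : ZI, q ≠ 0 → ∀ χ ∈ FN q, cd q χ ∣ q ∧ HC (cd q χ) (pr q χ) ∧
      ∀ a : ZI, IsCoprime a q → pr q χ a = chiZ q χ a) :
    ∃ C0 η σ : ℝ, 1 ≤ C0 ∧ 0 < η ∧ 0 < σ ∧ ∀ (q : ZI) (T : ℝ), q ≠ 0 →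
      C0 * (1 + Real.sqrt (Real.log ‖tc q‖)) ≤ T → T ≤ ‖tc q‖ ^ η →
      0 < (FN q).card ∧
      (0.6725 + σ) * ∑ χ ∈ FN q, (NN (LH (pr q χ)) T (2 * T) : ℝ) ≤
        ∑ χ ∈ FN q, (Ns (LH (pr q χ)) T (2 * T) : ℝ) := by
  have h0 : (0 : ℝ) < 1.414 := by norm_num
  have hπ : (1.414 : ℝ) < Real.pi := by linarith [Real.pi_gt_three]
  set R0 : ℝ := Rw 1.414 0 with hR0
  have hR0n : 0 ≤ R0 := Rw_nonneg 1.414 h0 hπ 0
  set J : ℝ := ∫ α in (0 : ℝ)..1, α * Rw 1.414 α with hJ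
  have hJn : 0 ≤ J := I1_nonneg 1.414 h0 hπ
  have hconst : R0 + 2 * J < 1.3275 := Rw_const_d2
  set e : ℝ := (1.3275 - (R0 + 2 * J)) / 2 with he
  have he0 : 0 < e := by rw [he]; linarith
  -- choose β = 2 (1 - s)
  set s : ℝ := min (1 / 2) (e / (4 * R0 + 1)) with hs
  have hs0 : 0 < s := by positivity
  have hs1 : s ≤ 1 / 2 := min_le_left _ _
  have hs2 : 4 * R0 * s ≤ e := by
    have h1 : s ≤ e / (4 * R0 + 1) := min_le_right _ _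
    calc 4 * R0 * s ≤ 4 * R0 * (e / (4 * R0 + 1)) := mul_le_mul_of_nonneg_left h1 (by positivity)
      _ = e * (4 * R0 / (4 * R0 + 1)) := by ring
      _ ≤ e * 1 := by
        refine mul_le_mul_of_nonneg_left ?_ he0.le
        rw [div_le_one (by positivity)]; linarith
      _ = e := mul_one e
  set β' : ℝ := 1 - s with hβ'
  have hβ'0 : 0 < β' := by rw [hβ']; linarith
  have hβ'1 : β' < 1 := by rw [hβ']; linarith
  have hβh : 1 / 2 ≤ β' := by rw [hβ']; linarith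
  have e2 : R0 / β' ≤ R0 + e / 2 := by
    rw [div_le_iff₀ hβ'0]
    have h1 : (R0 + e / 2) * β' = R0 - R0 * s + e / 2 * β' := by rw [hβ']; ring
    have h2 : e / 2 * (1 / 2) ≤ e / 2 * β' := mul_le_mul_of_nonneg_left hβh (by linarith)
    rw [h1]
    linarith
  have e3 : 2 * β' * J ≤ 2 * J := by
    have : 2 * β' * J = 2 * (β' * J) := by ring
    rw [this]
    have : β' * J ≤ 1 * J := mul_le_mul_of_nonneg_right hβ'1.le hJn
    linarith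
  obtain ⟨C0, η, hC0, hη, h⟩ := core_ms cd pr hprim (fun ε hε => cond_ms cd pr hprim ε hε)
    1.414 (2 * β') (e / 2) h0 hπ (by positivity) (by linarith) (by positivity)
  refine ⟨C0, η, e, hC0, hη, he0, ?_⟩
  intro q T hq hT hT2
  obtain ⟨b0, b1, -⟩ := h q T hq hT hT2
  have hcc : 2 * R0 / (2 * β') + 2 * β' * J + e / 2 ≤ 1.3275 - e := by
    have h1 : 2 * R0 / (2 * β') = R0 / β' := by field_simp
    have : R0 + 2 * J + 2 * e = 1.3275 := by rw [he]; ring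
    rw [h1]
    linarith
  set SN : ℝ := ∑ χ ∈ FN q, (NN (LH (pr q χ)) T (2 * T) : ℝ) with hSN
  set SS : ℝ := ∑ χ ∈ FN q, (Ns (LH (pr q χ)) T (2 * T) : ℝ) with hSS
  have hSN0 : 0 ≤ SN := Finset.sum_nonneg fun χ _ => Nat.cast_nonneg _
  rw [Finset.sum_sub_distrib, ← Finset.mul_sum, ← hSN, ← hSS] at b1
  have c3 := mul_le_mul_of_nonneg_right hcc hSN0
  have c1 : 2 * SN - SS ≤ (1.3275 - e) * SN := le_trans b1 c3
  refine ⟨b0, ?_⟩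
  have e4 : (0.6725 + e) * SN = 2 * SN - (1.3275 - e) * SN := by ring
  rw [e4]
  linarith

theorem final_aux2 (C C2 T ℓ n S pi : ℝ) (hC : 0 < C) (hC2 : 0 < C2) (hT0 : 0 < T) (hn0 : 0 ≤ n)
    (hℓ0 : 0 ≤ ℓ) (hℓL : 12 * (2 + C2 + 3 * C) ≤ ℓ) (hpi : 0 < pi) (hpi4 : pi < 3.15)
    (hc : n * ℓ - S ≤ (1 / 2 * ℓ + C2) * n) :
    2 * T * n ≤ T / pi * S - n * (3 * C * T + T * ℓ / 16) := by
  have hS1 : n * (ℓ / 2 - C2) ≤ S := by
    have : (1 / 2 * ℓ + C2) * n = n * ℓ - n * (ℓ / 2 - C2) := by ring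
    rw [this] at hc
    linarith only [hc]
  have hS2 : T / pi * (n * (ℓ / 2 - C2)) ≤ T / pi * S :=
    mul_le_mul_of_nonneg_left hS1 (by positivity)
  have hfin : 2 * T * n + n * (3 * C * T + T * ℓ / 16) ≤ T / pi * (n * (ℓ / 2 - C2)) := by
    have h8 : T / pi * (n * (ℓ / 2 - C2)) = (T * n) * ((ℓ / 2 - C2) / pi) := by
      field_simp
    have h9 : 2 * T * n + n * (3 * C * T + T * ℓ / 16) = (T * n) * (2 + 3 * C + ℓ / 16) := by ring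
    rw [h8, h9]
    apply mul_le_mul_of_nonneg_left _ (by positivity)
    rw [le_div_iff₀ hpi]
    have h11 : 0 ≤ 2 + 3 * C + ℓ / 16 := by positivity
    have h12 : (2 + 3 * C + ℓ / 16) * pi ≤ (2 + 3 * C + ℓ / 16) * 3.15 :=
      mul_le_mul_of_nonneg_left hpi4.le h11
    linarith only [h12, hℓL, hC, hC2]
  linarith only [hS2, hfin]

/-- lower bound for the number of the zeros -/
theorem zero_lower (cd : (q : ZI) → MulChar (RQ q) ℂ → ZI)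
    (pr : (q : ZI) → MulChar (RQ q) ℂ → (ZI →* ℂ))
    (hprim : ∀ q : ZI, q ≠ 0 → ∀ χ ∈ FN q, cd q χ ∣ q ∧ HC (cd q χ) (pr q χ) ∧
      ∀ a : ZI, IsCoprime a q → pr q χ a = chiZ q χ a) :
    ∃ C1 : ℝ, 1 ≤ C1 ∧ ∀ (q : ZI) (T : ℝ), q ≠ 0 → 0 < (FN q).card →
      C1 * (1 + Real.sqrt (Real.log ‖tc q‖)) ≤ T → T ≤ ‖tc q‖ →
      2 * T * ((FN q).card : ℝ) ≤ ∑ χ ∈ FN q, (NN (LH (pr q χ)) T (2 * T) : ℝ) := by
  obtain ⟨A, hA, hgood⟩ := goodH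
  obtain ⟨C, hC, hlow⟩ := H385.N_lower_D 2 A (by norm_num) hA
  obtain ⟨C2', hC2', hcond⟩ := cond_ms cd pr hprim (1 / 4) (by norm_num)
  obtain ⟨C2, hC2d⟩ : ∃ C2 : ℝ, C2 = 2 * C2' := ⟨_, rfl⟩
  have hC2 : 0 < C2 := by rw [hC2d]; positivity
  obtain ⟨K, hK⟩ : ∃ K : ℝ, K = 32 * (C + 1) := ⟨_, rfl⟩
  obtain ⟨L0, hL0⟩ : ∃ L0 : ℝ, L0 = 12 * (2 + C2 + 3 * C) := ⟨_, rfl⟩
  have hK32 : 32 ≤ K := by rw [hK]; linarith
  obtain ⟨C1, hC1⟩ : ∃ C1 : ℝ, C1 = max (3 * K) (Real.exp L0) := ⟨_, rfl⟩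
  have hC1a : 3 * K ≤ C1 := by rw [hC1]; exact le_max_left _ _
  have hC1b : Real.exp L0 ≤ C1 := by rw [hC1]; exact le_max_right _ _
  refine ⟨C1, by linarith, ?_⟩
  intro q T hq hcard hT1 hT2
  obtain ⟨Q, hQ⟩ : ∃ Q : ℝ, Q = ‖tc q‖ := ⟨_, rfl⟩
  obtain ⟨ℓ, hℓ⟩ : ∃ ℓ : ℝ, ℓ = Real.log ‖tc q‖ := ⟨_, rfl⟩
  have hQ1 : 1 ≤ ‖tc q‖ := one_le_norm_tc hq
  have hℓ0 : 0 ≤ ℓ := by rw [hℓ]; exact Real.log_nonneg hQ1
  rw [← hℓ] at hT1
  have hs0 : 0 ≤ Real.sqrt ℓ := Real.sqrt_nonneg _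
  have hTC : C1 ≤ T := by nlinarith only [hT1, hs0, hC1a, hK32]
  have hT3K : 3 * K ≤ T := hC1a.trans hTC
  have hT1' : 1 ≤ T := by linarith
  have hT0 : 0 < T := by linarith
  have hℓL : L0 ≤ ℓ := by
    rw [hℓ, Real.le_log_iff_exp_le (by linarith)]
    linarith
  have hlogT : Real.log T ≤ ℓ := by rw [hℓ]; exact Real.log_le_log hT0 hT2
  have hlogT0 : 0 ≤ Real.log T := Real.log_nonneg hT1'
  obtain ⟨κ, hκ⟩ : ∃ κ : ℝ, κ = T / K := ⟨_, rfl⟩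
  have hK0 : 0 < K := by linarith
  have hκ3 : 3 ≤ κ := by
    rw [hκ, le_div_iff₀ hK0]; exact hT3K
  have hκ8 : 8 * κ ≤ T := by
    rw [hκ, mul_div_assoc', div_le_iff₀ hK0]
    nlinarith only [hK32, hT0]
  have hκ2 : 2 * ℓ ≤ κ ^ 2 / 2 := by
    have h1 : 2 * Real.sqrt ℓ ≤ κ := by
      rw [hκ, le_div_iff₀ hK0]
      have h2 : C1 * Real.sqrt ℓ ≤ T := by nlinarith only [hT1, hs0, hC1a, hK32]
      have h3 : 3 * K * Real.sqrt ℓ ≤ C1 * Real.sqrt ℓ := mul_le_mul_of_nonneg_right hC1a hs0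
      have h4 : 0 ≤ K * Real.sqrt ℓ := mul_nonneg hK0.le hs0
      linarith only [h2, h3, h4]
    have h2 := Real.sq_sqrt hℓ0
    nlinarith only [h1, h2, hs0]
  have hexp : Real.exp (-κ ^ 2 / 2) ≤ Real.exp (-(2 * ℓ)) := by
    apply Real.exp_le_exp.2
    linarith only [hκ2]
  have hex2 := Pool.Agent.W164.RC.exp_two_ge ℓ hℓ0
  have hE : 4 * ℓ ^ 2 * Real.exp (-κ ^ 2 / 2) ≤ 2 :=
    (mul_le_mul_of_nonneg_left hexp (by positivity)).trans hex2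
  have hone : ∀ χ ∈ FN q, T / Real.pi * Real.log ‖tc (cd q χ)‖ - (3 * C * T + T * ℓ / 16) ≤
      (NN (LH (pr q χ)) T (2 * T) : ℝ) := by
    intro χ hχ
    obtain ⟨h1, h2, h3⟩ := hprim q hq χ hχ
    obtain ⟨g1, g2, g3, g4⟩ := hgood _ _ h2
    have hR1 : 1 ≤ ‖tc (cd q χ)‖ := one_le_norm_tc h2.q0
    have hRQ : ‖tc (cd q χ)‖ ≤ ‖tc q‖ := H385.norm_tc_le_of_dvd _ _ hq h1
    have hlogR : Real.log (‖tc (cd q χ)‖ * T) = Real.log ‖tc (cd q χ)‖ + Real.log T :=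
      Real.log_mul (by linarith) (by linarith)
    have hlR0 : 0 ≤ Real.log ‖tc (cd q χ)‖ := Real.log_nonneg hR1
    have hlR : Real.log ‖tc (cd q χ)‖ ≤ ℓ := by
      rw [hℓ]; exact Real.log_le_log (by linarith) hRQ
    exact Pool.Agent.W164.RC.one_lower_aux C K T ℓ _ _ κ _ _ Real.pi hC hK hT0 hℓ0 hκ Real.pi_pos
      (by rw [hlogR]; linarith) (by rw [hlogR]; linarith) (by rw [hlogR]; linarith)
      (Real.exp_pos _).le hE (hlow _ _ _ hR1 g4 T κ hκ3 hκ8)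
  refine le_trans ?_ (Finset.sum_le_sum hone)
  rw [Finset.sum_sub_distrib, ← Finset.mul_sum, Finset.sum_const, nsmul_eq_mul]
  have hc := hcond q hq
  rw [Finset.sum_sub_distrib, Finset.sum_const, nsmul_eq_mul, ← hℓ] at hc
  have hcd : ((FA q).card : ℝ) ≤ 2 * ((FN q).card : ℝ) := by
    have h1 := card_FN q hq
    have h2 : (FA q).card ≤ 2 * (FN q).card := by omega
    exact_mod_cast h2
  have hc2 : ((FN q).card : ℝ) * ℓ - ∑ χ ∈ FN q, Real.log ‖tc (cd q χ)‖ ≤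
      (1 / 2 * ℓ + C2) * ((FN q).card : ℝ) := by
    refine hc.trans ?_
    have h3 : (1 / 4 * ℓ + C2') * ((FA q).card : ℝ) ≤ (1 / 4 * ℓ + C2') * (2 * ((FN q).card : ℝ)) :=
      mul_le_mul_of_nonneg_left hcd (by positivity)
    refine h3.trans (le_of_eq ?_)
    rw [hC2d]
    ring
  exact final_aux2 C C2 T ℓ _ _ Real.pi hC hC2 hT0 (Nat.cast_nonneg _) hℓ0 (by rw [← hL0]; exact hℓL)
    Real.pi_pos Real.pi_lt_d2 hc2

end Pool.Agent.V7H44.HL
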