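import Pool.Agent.V7H44.HL.Euler0
import Pool.Agent.V7H44.HL.ZeroA
import Pool.Agent.Y762.EG.Count
import Pool.Agent.Y762.EG.FinA

/-!
The zeros of the product of the L-functions of type zero.
-/

set_option autoImplicit false
set_option maxHeartbeats 4000000

open NumberField IsDedekindDomain Complex Filter Topology Set
open H370 (zset mult NN Nd Ns)
open H385 (ZI RQ im1 chiZ phiQ nrm)
open Pool.Agent.H304R3.HK (UH tc one_le_norm_tc)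
open Pool.Agent.H82R3.AR (FA FN mem_FA mem_FN FN_eq one_mem_FA HC LH uh_chi goodH card_FN fa_card)
open Pool.Agent.Y762.HK (PrimData)
open Pool.Agent.W164.RC (Cq Cq_diff Cq_ne two2)
open Pool.Agent.W354.HW (cnt strip line NN_eq Ns_le zset_eq)

namespace Pool.Agent.V7H44.HL

section
variable (cd : (q : ZI) → MulChar (RQ q) ℂ → ZI)
    (pr : (q : ZI) → MulChar (RQ q) ℂ → (ZI →* ℂ))
    (hprim : ∀ q : ZI, q ≠ 0 → ∀ χ, PrimData q χ (cd q χ) (pr q χ))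

include hprim

theorem R0_diff {q : ZI} (hq : q ≠ 0) : Differentiable ℂ (R0 pr q) := by
  obtain ⟨A, hA, hgood⟩ := goodH
  unfold R0
  refine (Cq_diff q t0).mul (Differentiable.fun_finsetProd fun χ hχ => ?_)
  exact (hgood _ _ (hc_of hq hχ (hprim q hq χ))).1.mul (Cq_diff q _)

theorem FE0_an {q : ZI} (hq : q ≠ 0) {s : ℂ} (hs : s ≠ 1) : AnalyticAt ℂ (FE0 pr q) s :=
  (Z4_an hs).mul ((R0_diff cd pr hprim hq).analyticAt s)

theorem FE0_entire {q : ZI} (hq : q ≠ 0) : ∃ G : ℂ → ℂ, Differentiable ℂ G ∧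
    ∀ s : ℂ, s ≠ 1 → (s - 1) * FE0 pr q s = G s := by
  refine ⟨fun s => Z4e s * R0 pr q s, Z4e_diff.mul (R0_diff cd pr hprim hq), fun s hs => ?_⟩
  show (s - 1) * (Z4 s * R0 pr q s) = Z4e s * R0 pr q s
  rw [Z4e_eq hs]
  ring

theorem NF_LH {q : ZI} (hq : q ≠ 0) {χ : MulChar (RQ q) ℂ} (hχ : χ ∈ FN q) {T : ℝ}
    (hT : 1 ≤ T) : NF (LH (pr q χ)) (strip T (2 * T)) := by
  obtain ⟨A, hA, hgood⟩ := goodH
  have hH := hc_of hq hχ (hprim q hq χ)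
  obtain ⟨g1, g2, g3, g4⟩ := hgood _ _ hH
  refine ⟨fun s _ => g1.analyticAt s, fun s _ => ?_, ?_⟩
  · have h4 : LH (pr q χ) (⟨2, 1⟩ : ℂ) ≠ 0 := g4.nzr _ (by norm_num) (by norm_num)
    exact H370.Loc.order_ne_top (K := Set.univ) isPreconnected_univ
      (fun z _ => g1.analyticAt z) (Set.mem_univ _) h4 (Set.mem_univ s)
  · rw [← zset_eq]
    exact H385.zset_finite_D hA (one_le_norm_tc hH.q0) g4 T (2 * T) hT

theorem FE0_cnt {q : ZI} (hq : q ≠ 0) {T : ℝ} (hT : 1 ≤ T) {W : Set ℂ}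
    (hW : W ⊆ strip T (2 * T)) : NF (FE0 pr q) W ∧
      cnt (FE0 pr q) W = cnt Z4 W + ∑ χ ∈ FN q, cnt (LH (pr q χ)) W := by
  have hre : ∀ s ∈ W, 0 < s.re := fun s hs => (hW hs).1
  have h1 : NF Z4 W := (NF_Z4 hT).mono hW
  have h2 : NF (Cq q t0) W ∧ cnt (Cq q t0) W = 0 :=
    NF.of_ne (fun s _ => (Cq_diff q t0).analyticAt s) fun s hs => Cq_ne q t0_uh (hre s hs)
  have h3 : ∀ χ ∈ FN q, NF (fun s => LH (pr q χ) s * Cq q (pr q χ) s) W ∧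
      cnt (fun s => LH (pr q χ) s * Cq q (pr q χ) s) W = cnt (LH (pr q χ)) W := by
    intro χ hχ
    have hH := hc_of hq hχ (hprim q hq χ)
    have a1 : NF (LH (pr q χ)) W := (NF_LH cd pr hprim hq hχ hT).mono hW
    have a2 : NF (Cq q (pr q χ)) W ∧ cnt (Cq q (pr q χ)) W = 0 :=
      NF.of_ne (fun s _ => (Cq_diff q _).analyticAt s) fun s hs =>
        Cq_ne q (uh_chi _ _ hH) (hre s hs)
    have a3 := a1.mul a2.1
    rw [a2.2, add_zero] at a3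
    exact a3
  have h4 := NF.prod (FN q) (fun χ s => LH (pr q χ) s * Cq q (pr q χ) s) (W := W)
    fun χ hχ => (h3 χ hχ).1
  have h5 := h2.1.mul h4.1
  have h6 := h1.mul h5.1
  refine ⟨h6.1, ?_⟩
  have e : cnt (FE0 pr q) W = cnt Z4 W + cnt (fun z => Cq q t0 z *
      ∏ χ ∈ FN q, (LH (pr q χ) z * Cq q (pr q χ) z)) W := h6.2
  rw [e, h5.2, h2.2, zero_add, h4.2]
  congr 1
  exact Finset.sum_congr rfl fun χ hχ => (h3 χ hχ).2

/-- type zero -/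
theorem zero_main : ∃ C0 η : ℝ, 1 ≤ C0 ∧ 0 < η ∧ ∀ (q : ZI) (T : ℝ), q ≠ 0 → two2 ∣ q →
    C0 * (1 + Real.sqrt (Real.log (‖tc q‖ ^ 2))) ≤ T → T ≤ ‖tc q‖ ^ η →
    0.6725 * (cnt (FE0 pr q) (strip T (2 * T)) : ℝ) ≤ (cnt (FE0 pr q) (line T (2 * T)) : ℝ) ∧
    T * ((phiQ q : ℝ) / 4) ≤ (cnt (FE0 pr q) (strip T (2 * T)) : ℝ) := by
  have hp0 : ∀ q : ZI, q ≠ 0 → ∀ χ ∈ FN q, cd q χ ∣ q ∧ HC (cd q χ) (pr q χ) ∧
      ∀ a : ZI, IsCoprime a q → pr q χ a = chiZ q χ a := fun q hq χ hχ =>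
    ⟨(hprim q hq χ).dvd, hc_of hq hχ (hprim q hq χ), (hprim q hq χ).eq⟩
  obtain ⟨Cb, ηb, σ, hCb, hηb, hσ, Hb⟩ := zero_slack cd pr hp0
  obtain ⟨Cc, hCc, Hc⟩ := zero_lower cd pr hp0
  obtain ⟨Cz, hCz, Hz⟩ := cnt_Z4
  obtain ⟨c, hc, hphi⟩ := phi_ge
  obtain ⟨X, hX1, HX⟩ := log_small (0.6725 * Cz + 2 * σ) (σ * c / 2) (by positivity) (by positivity)
  refine ⟨Cb + Cc + X + 3, min ηb 1, by linarith, lt_min hηb one_pos, ?_⟩
  intro q T hq h2 hT hT2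
  have hQ1 : 1 ≤ ‖tc q‖ := one_le_norm_tc hq
  obtain ⟨Q, hQ⟩ : ∃ Q : ℝ, Q = ‖tc q‖ := ⟨_, rfl⟩
  have hlogQ : 0 ≤ Real.log ‖tc q‖ := Real.log_nonneg hQ1
  have hlog2 : Real.log (‖tc q‖ ^ 2) = 2 * Real.log ‖tc q‖ := by
    rw [Real.log_pow]
    push_cast
    ring
  have hss : Real.sqrt (Real.log ‖tc q‖) ≤ Real.sqrt (Real.log (‖tc q‖ ^ 2)) :=
    Real.sqrt_le_sqrt (by rw [hlog2]; linarith)
  have hs0 : 0 ≤ Real.sqrt (Real.log ‖tc q‖) := Real.sqrt_nonneg _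
  have hlow : ∀ C : ℝ, 0 ≤ C → C ≤ Cb + Cc + X + 3 →
      C * (1 + Real.sqrt (Real.log ‖tc q‖)) ≤ T := by
    intro C hC0 hC
    refine le_trans ?_ hT
    exact mul_le_mul hC (by linarith) (by linarith) (by linarith)
  have hlow' : ∀ C : ℝ, 0 ≤ C → C ≤ Cb + Cc + X + 3 → C ≤ T := by
    intro C hC0 hC
    refine le_trans ?_ (hlow C hC0 hC)
    nlinarith
  have hT1 : 1 ≤ T := hlow' 1 (by norm_num) (by linarith)
  have hT3 : 3 ≤ T := hlow' 3 (by norm_num) (by linarith)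
  have hTX : X ≤ T := hlow' X (by linarith) (by linarith)
  have hT0 : 0 < T := by linarith
  have hTb : T ≤ ‖tc q‖ ^ ηb :=
    hT2.trans (Real.rpow_le_rpow_of_exponent_le hQ1 (min_le_left _ _))
  have hTQ : T ≤ ‖tc q‖ := by
    have := hT2.trans (Real.rpow_le_rpow_of_exponent_le hQ1 (min_le_right _ _))
    rwa [Real.rpow_one] at this
  obtain ⟨k1, k2⟩ := Hb q T hq (hlow Cb (by linarith) (by linarith)) hTb
  have k3 := Hc q T hq k1 (hlow Cc (by linarith) (by linarith)) hTQ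
  have k4 := Hz T hT3
  have k5 := hphi q hq
  have k6 := HX ‖tc q‖ (hTX.trans hTQ)
  have hcard := card_FN q hq
  have hfa := fa_card q (Pool.Agent.Y762.EG.nrm_two2 hq h2)
  have hcR : ((FN q).card : ℝ) + 1 = (phiQ q : ℝ) / 4 := by
    rw [← hfa]
    exact_mod_cast hcard
  have hFN1 : (1 : ℝ) ≤ ((FN q).card : ℝ) := by exact_mod_cast k1
  obtain ⟨-, a2⟩ := FE0_cnt cd pr hprim hq hT1 (subset_rfl : strip T (2 * T) ⊆ strip T (2 * T))
  obtain ⟨-, a4⟩ := FE0_cnt cd pr hprim hq hT1 (line_sub T (2 * T))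
  obtain ⟨N1, hN1⟩ : ∃ N1 : ℝ, N1 = ∑ χ ∈ FN q, (NN (LH (pr q χ)) T (2 * T) : ℝ) := ⟨_, rfl⟩
  obtain ⟨S1, hS1⟩ : ∃ S1 : ℝ, S1 = ∑ χ ∈ FN q, (Ns (LH (pr q χ)) T (2 * T) : ℝ) := ⟨_, rfl⟩
  rw [← hN1] at k2 k3
  rw [← hS1] at k2
  have e1 : (cnt (FE0 pr q) (strip T (2 * T)) : ℝ) = (cnt Z4 (strip T (2 * T)) : ℝ) + N1 := by
    rw [a2, hN1]
    push_cast
    congr 1
    exact Finset.sum_congr rfl fun χ _ => by rw [NN_eq]
  have e2 : S1 ≤ (cnt (FE0 pr q) (line T (2 * T)) : ℝ) := by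
    rw [a4, hS1]
    push_cast
    have h5 : ∑ χ ∈ FN q, (Ns (LH (pr q χ)) T (2 * T) : ℝ) ≤
        ∑ χ ∈ FN q, (cnt (LH (pr q χ)) (line T (2 * T)) : ℝ) := by
      refine Finset.sum_le_sum fun χ hχ => ?_
      have h6 := (NF_LH cd pr hprim hq hχ hT1).fin
      rw [← zset_eq] at h6
      exact_mod_cast Ns_le _ _ _ h6
    have h7 : (0 : ℝ) ≤ (cnt Z4 (line T (2 * T)) : ℝ) := Nat.cast_nonneg _
    linarith
  have hz0 : (0 : ℝ) ≤ (cnt Z4 (strip T (2 * T)) : ℝ) := Nat.cast_nonneg _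
  constructor
  · rw [e1]
    refine le_trans ?_ e2
    refine le_trans ?_ k2
    have h8 : Real.log (8 * T) ≤ Real.log (8 * ‖tc q‖) :=
      Real.log_le_log (by positivity) (by linarith)
    have h9 : 1 ≤ Real.log (8 * ‖tc q‖) := by
      rw [Real.le_log_iff_exp_le (by linarith)]
      have := Real.exp_one_lt_d9
      linarith
    have h10 : 0.6725 * Cz * Real.log (8 * ‖tc q‖) + 2 * σ ≤ σ * c / 2 * ‖tc q‖ := by
      refine le_trans ?_ k6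
      nlinarith
    have h11 : 0.6725 * (cnt Z4 (strip T (2 * T)) : ℝ) ≤
        0.6725 * (Cz * T * Real.log (8 * ‖tc q‖)) := by
      refine mul_le_mul_of_nonneg_left (k4.trans ?_) (by norm_num)
      exact mul_le_mul_of_nonneg_left h8 (by positivity)
    have h12 : T * (0.6725 * Cz * Real.log (8 * ‖tc q‖) + 2 * σ) ≤ T * (σ * c / 2 * ‖tc q‖) :=
      mul_le_mul_of_nonneg_left h10 hT0.le
    have h13 : σ * (2 * T * ((FN q).card : ℝ)) ≤ σ * N1 := mul_le_mul_of_nonneg_left k3 hσ.le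
    have h14 : ((FN q).card : ℝ) = (phiQ q : ℝ) / 4 - 1 := by linarith
    have h15 : σ * T * (c * ‖tc q‖) ≤ σ * T * (phiQ q : ℝ) :=
      mul_le_mul_of_nonneg_left k5 (by positivity)
    rw [h14] at h13
    have e5 : σ * (2 * T * ((phiQ q : ℝ) / 4 - 1)) = σ * T * (phiQ q : ℝ) / 2 - 2 * σ * T := by
      ring
    rw [e5] at h13
    nlinarith
  · rw [e1, ← hcR]
    nlinarith

end

end Pool.Agent.V7H44.HL
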