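import Pool.Agent.V7H44.HL.Triv
import Pool.Agent.Y762.EG.Euler2
import Pool.Agent.H82R3.AR.MsC

/-!
The product of the L-functions of the characters of finite order: Euler product over the places of
the ray class field.
-/

set_option autoImplicit false

open NumberField IsDedekindDomain Complex
open H385 (ZI RQ im1 chiZ phiQ nrm)
open Pool.Agent.H304R3.HK (bb ee UH tc)
open Pool.Agent.H82R3.AR (FA FN mem_FA mem_FN FN_eq one_mem_FA HC LH bH uh_chi goodH triv_of_unit)
open Pool.Agent.H921R2.TatePole (below deg nm nm_eq nm_summable two_le_nm)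
open Pool.Agent.H82R3.EK (below_eq_of_mem)
open Pool.Agent.Y762.HK (PrimData)
open Pool.Agent.W354.PK (psik)
open Pool.Agent.Y762.EG (FQk mem_FQk chi_side_k Yk one_fac two_mem inv_bound norm_rt)
open Pool.Agent.W164.RC

namespace Pool.Agent.V7H44.HL

open Classical in
/-- the chosen primitive character, `1` for the trivial character -/
noncomputable def prA (pr : (q : ZI) → MulChar (RQ q) ℂ → (ZI →* ℂ)) (q : ZI)
    (χ : MulChar (RQ q) ℂ) : ZI →* ℂ := if χ = 1 then 1 else pr q χ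

open Classical in
/-- the L-function of the primitive character -/
noncomputable def LA (pr : (q : ZI) → MulChar (RQ q) ℂ → (ZI →* ℂ)) (q : ZI)
    (χ : MulChar (RQ q) ℂ) (s : ℂ) : ℂ := if χ = 1 then Z4 s else LH (pr q χ) s

/-- the entire factors -/
noncomputable def R0 (pr : (q : ZI) → MulChar (RQ q) ℂ → (ZI →* ℂ)) (q : ZI) (s : ℂ) : ℂ :=
  Cq q t0 s * ∏ χ ∈ FN q, (LH (pr q χ) s * Cq q (pr q χ) s)

/-- the product of all the L-functions of type zero -/
noncomputable def FE0 (pr : (q : ZI) → MulChar (RQ q) ℂ → (ZI →* ℂ)) (q : ZI) (s : ℂ) : ℂ :=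
  Z4 s * R0 pr q s

theorem hc_of {q : ZI} (hq : q ≠ 0) {χ : MulChar (RQ q) ℂ} (hχ : χ ∈ FN q) {d : ZI}
    {ψ : ZI →* ℂ} (h : PrimData q χ d ψ) : HC d ψ where
  q0 := h.ne hq
  nu := fun hu => by
    obtain ⟨-, h1⟩ := (mem_FN q hq χ).1 hχ
    refine h1 (triv_of_unit q χ d ⟨h.dvd, fun a ha hda => ?_⟩ hu)
    rw [← h.eq a ha, h.per a 1 hda, map_one]
  per := h.per
  supp := h.supp
  nrm := h.nrm
  unit := by
    obtain ⟨h0, -⟩ := (mem_FN q hq χ).1 hχ
    rw [← h0]
    refine h.eq im1 ?_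
    refine ⟨⟨0, -1⟩, 0, ?_⟩
    rw [zero_mul, add_zero]
    decide
  prim := h.prim

theorem FQk_zero {q : ZI} (hq : q ≠ 0) : FQk q 0 = FA q := by
  ext χ
  rw [mem_FQk hq, mem_FA q hq, pow_zero]

theorem psik_zero {χ : ZI →* ℂ} (h : UH χ) : psik 0 χ = χ := by
  ext a
  show (if a = 0 then (0 : ℂ) else χ a * (tc a / (‖tc a‖ : ℂ)) ^ 0) = χ a
  split_ifs with ha
  · rw [ha, h.h0]
  · rw [pow_zero, mul_one]

section
variable (cd : (q : ZI) → MulChar (RQ q) ℂ → ZI)
    (pr : (q : ZI) → MulChar (RQ q) ℂ → (ZI →* ℂ))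
    (hprim : ∀ q : ZI, q ≠ 0 → ∀ χ, PrimData q χ (cd q χ) (pr q χ))

include hprim

theorem FE0_eq {q : ZI} (hq : q ≠ 0) (s : ℂ) :
    ∏ χ ∈ FQk q 0, (LA pr q χ s * Cq q (psik 0 (prA pr q χ)) s) = FE0 pr q s := by
  classical
  rw [FQk_zero hq, ← Finset.mul_prod_erase _ _ (one_mem_FA q hq), ← FN_eq q hq]
  unfold FE0 R0
  rw [← mul_assoc]
  congr 1
  · unfold LA prA
    rw [if_pos rfl, if_pos rfl]
    rfl
  · refine Finset.prod_congr rfl fun χ hχ => ?_
    have h1 : χ ≠ 1 := ((mem_FN q hq χ).1 hχ).2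
    unfold LA prA
    rw [if_neg h1, if_neg h1, psik_zero (uh_chi _ _ (hc_of hq hχ (hprim q hq χ)))]

theorem prA_eq {q : ZI} (hq : q ≠ 0) (χ : MulChar (RQ q) ℂ) (a : ZI) (ha : IsCoprime a q) :
    prA pr q χ a = chiZ q χ a := by
  unfold prA
  split_ifs with h
  · subst h
    obtain ⟨u, hu⟩ := H385.he2_unit ha
    show (1 : ℂ) = (1 : MulChar (RQ q) ℂ) (Ideal.Quotient.mk (Ideal.span {q}) a)
    rw [← hu, MulChar.one_apply_coe]
  · exact (hprim q hq χ).eq a ha

/-- product over the characters -/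
theorem hasProd_FE0 {q : ZI} (hq : q ≠ 0) (h2 : two2 ∣ q) {s : ℂ} (hs : 1 < s.re) :
    HasProd (fun p : Nat.Primes => ∏ χ ∈ FQk q 0, epf q (psik 0 (prA pr q χ)) s p)
      (FE0 pr q s) := by
  classical
  obtain ⟨A, hA, hgood⟩ := goodH
  rw [← FE0_eq cd pr hprim hq s]
  apply hasProd_prod
  intro χ hχ
  by_cases h1 : χ = 1
  · have e1 : psik 0 (prA pr q χ) = t0 := by
      unfold prA
      rw [if_pos h1]
      rfl
    have e2 : LA pr q χ s = Z4 s := by
      unfold LA
      rw [if_pos h1]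
    rw [e1, e2]
    exact hasProd_Z4q hq h2 hs
  · have hχ' : χ ∈ FN q := by
      rw [FQk_zero hq, mem_FA q hq] at hχ
      exact (mem_FN q hq χ).2 ⟨hχ, h1⟩
    have hH := hc_of hq hχ' (hprim q hq χ)
    have e1 : psik 0 (prA pr q χ) = pr q χ := by
      unfold prA
      rw [if_neg h1, psik_zero (uh_chi _ _ hH)]
    have e2 : LA pr q χ s = LH (pr q χ) s := by
      unfold LA
      rw [if_neg h1]
    rw [e1, e2]
    exact hasProd_epf hq h2 (uh_chi _ _ hH) (by linarith) ((hgood _ _ hH).2.1 s hs)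

end

section
variable {q : ZI} {K : Type} [Field K] [NumberField K] {ι : ZI →+* 𝓞 K}
  {art : (RQ q)ˣ →* (𝓞 K ≃+* 𝓞 K)}

/-- one factor -/
theorem norm_pow_z {p : ℕ} (hp : p.Prime) {z : ZI} (hz : z ∈ Ip p) (f n : ℕ) (hf : n = nrm z ^ f)
    (s : ℂ) : (n : ℂ) ^ (-s) = Yk 0 p s z ^ f := by
  have h1 := one_fac 0 hp hz f s
  rw [pow_zero, one_mul, Nat.cast_zero, zero_div, add_zero, ← hf] at h1
  exact h1

/-- product over the places above `p` -/
theorem fiber_K0 (hq : q ≠ 0) (h2 : two2 ∣ q) (H : IsRayClassField q K ι art) (p : Nat.Primes)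
    (s : ℂ) :
    (open Classical in ∏ v : {v : HeightOneSpectrum (𝓞 K) // below v = p},
      (if ι q ∈ v.1.asIdeal then 1
        else (1 - ((Ideal.absNorm v.1.asIdeal : ℕ) : ℂ) ^ (-s))⁻¹)) =
      if (p : ℕ) = 2 then 1 else ∏ᶠ z ∈ {z : ZI | z ∈ Ip p ∧ ¬ z ∣ q},
        ((1 - Yk 0 p s z ^ fz q z) ^ Nz q z)⁻¹ := by
  classical
  split_ifs with hp2
  · apply Finset.prod_eq_one
    rintro ⟨v, hv⟩ _
    rw [if_pos]
    exact two_mem h2 v (by rw [hv]; exact hp2)
  · have h3 : {z : ZI | z ∈ Ip p ∧ ¬ z ∣ q} = (((Ip p).filter (fun z => ¬ z ∣ q) : Finset ZI) :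
        Set ZI) := by
      ext z
      simp
    rw [h3, finprod_mem_coe_finset]
    set J := (Ip p).filter (fun z => ¬ z ∣ q) with hJ
    have hcop : ∀ z ∈ J, IsCoprime z q := by
      intro z hz
      rw [hJ, Finset.mem_filter] at hz
      exact ((Ip_spec p.2 hz.1).2.1.irreducible.coprime_iff_not_dvd).2 hz.2
    rw [Finset.prod_ite, Finset.prod_const_one, one_mul]
    have hU : (Finset.univ : Finset {v : HeightOneSpectrum (𝓞 K) // below v = p}).filter
        (fun v => ¬ ι q ∈ v.1.asIdeal) = J.biUnion (fun z =>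
          (Finset.univ : Finset {v : HeightOneSpectrum (𝓞 K) // below v = p}).filter
            (fun v => ι z ∈ v.1.asIdeal)) := by
      ext v
      simp only [Finset.mem_filter, Finset.mem_univ, true_and, Finset.mem_biUnion]
      constructor
      · intro hv
        have h4 := (nm_eq v.1).2.2
        rw [v.2] at h4
        have := v.1.isPrime
        obtain ⟨z, hz, hzv⟩ := Ip_exists p.2 hp2 ι v.1.asIdeal h4
        refine ⟨z, ?_, hzv⟩
        rw [hJ, Finset.mem_filter]
        refine ⟨hz, ?_⟩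
        rintro ⟨c, rfl⟩
        apply hv
        rw [map_mul]
        exact v.1.asIdeal.mul_mem_right _ hzv
      · rintro ⟨z, hz, hzv⟩
        exact not_mem_both (hcop z hz) hzv
    rw [hU, Finset.prod_biUnion]
    · refine Finset.prod_congr rfl fun z hz => ?_
      have hz' := hz
      rw [hJ, Finset.mem_filter] at hz'
      obtain ⟨k1, k2, k3, k4⟩ := Nz_spec hq h2 H p.2 hz'.1 hz'.2
      have h5 : ∀ v ∈ (Finset.univ : Finset {v : HeightOneSpectrum (𝓞 K) // below v = p}).filter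
            (fun v => ι z ∈ v.1.asIdeal),
          (1 - ((Ideal.absNorm v.1.asIdeal : ℕ) : ℂ) ^ (-s))⁻¹ =
          (1 - Yk 0 p s z ^ fz q z)⁻¹ := by
        intro v hv
        rw [Finset.mem_filter] at hv
        rw [norm_pow_z p.2 hz'.1 (fz q z) _ (k1 v.1 hv.2) s]
      rw [Finset.prod_congr rfl h5, Finset.prod_const]
      have h6 : ((Finset.univ : Finset {v : HeightOneSpectrum (𝓞 K) // below v = p}).filter
            (fun v => ι z ∈ v.1.asIdeal)).card = Nz q z := by
        rw [← k2, ← Fintype.card_subtype, ← Nat.card_eq_fintype_card]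
        refine Nat.card_congr
          { toFun := fun v => ⟨v.1.1, v.2⟩
            invFun := fun v => ⟨⟨v.1, ?_⟩, v.2⟩
            left_inv := fun v => rfl
            right_inv := fun v => rfl }
        apply below_eq_of_mem
        obtain ⟨c, hc⟩ := (Ip_spec p.2 hz'.1).2.2.2
        have h7 : (((p : ℕ)) : 𝓞 K) = ι z * ι c := by
          rw [← map_mul, ← hc, map_natCast]
        rw [h7]
        exact v.1.asIdeal.mul_mem_right _ v.2
      rw [h6, inv_pow]
    · intro z hz w hw hzw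
      rw [Function.onFun, Finset.disjoint_left]
      intro v hv hv'
      rw [Finset.mem_filter] at hv hv'
      have hz' := Finset.mem_coe.1 hz
      have hw' := Finset.mem_coe.1 hw
      rw [hJ, Finset.mem_filter] at hz' hw'
      exact not_mem_both (Ip_coprime p.2 hz'.1 hw'.1 hzw) hv.2 hv'.2

/-- the Euler product over the places of `K` -/
theorem hasProd_K0 (cd : (q : ZI) → MulChar (RQ q) ℂ → ZI)
    (pr : (q : ZI) → MulChar (RQ q) ℂ → (ZI →* ℂ))
    (hprim : ∀ q : ZI, q ≠ 0 → ∀ χ, PrimData q χ (cd q χ) (pr q χ))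
    (hq : q ≠ 0) (h2 : two2 ∣ q) (H : IsRayClassField q K ι art) {s : ℂ} (hs : 1 < s.re) :
    HasProd (open Classical in fun v : HeightOneSpectrum (𝓞 K) =>
      if ι q ∈ v.asIdeal then 1 else (1 - ((Ideal.absNorm v.asIdeal : ℕ) : ℂ) ^ (-s))⁻¹)
      (FE0 pr q s) := by
  classical
  have hs' : 0 < s.re := by linarith
  have h1 := hasProd_FE0 cd pr hprim hq h2 hs
  have h3 : ∀ p : Nat.Primes, (∏ χ ∈ FQk q 0, epf q (psik 0 (prA pr q χ)) s p) =
      ∏ v : {v : HeightOneSpectrum (𝓞 K) // below v = p},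
        (if ι q ∈ v.1.asIdeal then 1
          else (1 - ((Ideal.absNorm v.1.asIdeal : ℕ) : ℂ) ^ (-s))⁻¹) := by
    intro p
    rw [fiber_K0 hq h2 H p s,
      chi_side_k 0 hq h2 (prA pr q) (fun χ hχ => prA_eq cd pr hprim hq χ) p.2 (fz q) (Nz q)
        (fun z hz hzq => by
          obtain ⟨k1, k2, k3, k4⟩ := Nz_spec hq h2 H p.2 hz hzq
          exact ⟨k3, fz_dvd q z, k4⟩) hs']
  simp_rw [h3] at h1
  have h4 : Multipliable (fun v : HeightOneSpectrum (𝓞 K) =>
      if ι q ∈ v.asIdeal then 1 else (1 - ((Ideal.absNorm v.asIdeal : ℕ) : ℂ) ^ (-s))⁻¹) := by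
    have hsum := nm_summable (K := K) (x := s.re) hs
    have h5 : Summable (fun v : HeightOneSpectrum (𝓞 K) =>
        ‖(if ι q ∈ v.asIdeal then 1
          else (1 - ((Ideal.absNorm v.asIdeal : ℕ) : ℂ) ^ (-s))⁻¹) - 1‖) := by
      refine Summable.of_norm_bounded_eventually (hsum.mul_left 6) ?_
      have h6 := hsum.tendsto_cofinite_zero.eventually (Iio_mem_nhds (by norm_num : (0 : ℝ) < 1 / 6))
      filter_upwards [h6] with v hv
      rw [norm_norm]
      split_ifs with hiq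
      · rw [sub_self, norm_zero]
        positivity
      · have e8 : ((nm v : ℕ) : ℝ) = ((Ideal.absNorm v.asIdeal : ℕ) : ℝ) := rfl
        have hpos : 0 < Ideal.absNorm v.asIdeal := by
          have := two_le_nm v
          unfold nm at this
          omega
        have b1 : ‖((Ideal.absNorm v.asIdeal : ℕ) : ℂ) ^ (-s)‖ = ((nm v : ℕ) : ℝ) ^ (-s.re) := by
          rw [Complex.norm_natCast_cpow_of_pos hpos, Complex.neg_re, e8]
        have b2 := inv_bound (w1 := ((Ideal.absNorm v.asIdeal : ℕ) : ℂ) ^ (-s)) (w2 := 0)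
          (x := ((nm v : ℕ) : ℝ) ^ (-s.re)) b1.le (by rw [norm_zero]; positivity) (by positivity)
          (le_of_lt hv)
        rw [sub_zero, mul_one] at b2
        exact b2
    have h7 := multipliable_one_add_of_summable h5
    refine h7.congr (fun v => ?_)
    ring
  rw [← (Equiv.sigmaFiberEquiv (below (K := K))).hasProd_iff]
  refine HasProd.sigma_of_hasProd h1 (fun p => ?_) ?_
  · exact hasProd_fintype _
  · exact (Equiv.sigmaFiberEquiv (below (K := K))).multipliable_iff.2 h4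

end

end Pool.Agent.V7H44.HL
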