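import Mathlib

/-!
The local factor of a cohomology group of type `E` with given Hodge numbers.
-/

set_option autoImplicit false

open Complex

namespace Pool.Agent.V7H44.HL

/-- the local factor -/
noncomputable def locH (h : ℕ → ℕ) (i : ℕ) (α β : ℂ) (n : ℕ) (s : ℂ) : ℂ :=
  ∏ a ∈ Finset.range (i + 1), (1 - α ^ a * β ^ (i - a) * (n : ℂ) ^ (-s)) ^ h a

/-- the Euler factor `((1 - α^k n^(-s-k/2)) (1 - β^k n^(-s-k/2)))⁻¹` -/
noncomputable def ef (k : ℕ) (α β : ℂ) (n : ℕ) (s : ℂ) : ℂ :=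
  ((1 - α ^ k * (n : ℂ) ^ (-(s + k / 2))) * (1 - β ^ k * (n : ℂ) ^ (-(s + k / 2))))⁻¹

/-- the differences of the two Hodge types -/
def kk (i l : ℕ) : ℕ := 2 * l + 2 - i % 2

/-- the multiplicity of the middle type -/
def c0 (h : ℕ → ℕ) (i : ℕ) : ℕ := if i % 2 = 0 then h (i / 2) else 0

/-- the multiplicities of the other types -/
def cl (h : ℕ → ℕ) (i l : ℕ) : ℕ := h ((i + 1) / 2 - 1 - l)

theorem kk_pos (i l : ℕ) : 1 ≤ kk i l := by
  unfold kk
  have := Nat.mod_lt i (show 0 < 2 by norm_num)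
  omega

theorem pair_ef (b k c : ℕ) {α β : ℂ} {n : ℕ} (hn : n ≠ 0) (hαβ : α * β = n) (s : ℂ) :
    ((1 - α ^ b * β ^ (b + k) * (n : ℂ) ^ (-s)) ^ c *
      (1 - α ^ (b + k) * β ^ b * (n : ℂ) ^ (-s)) ^ c)⁻¹ =
    ef k α β n (s - ((2 * b + k : ℕ) : ℂ) / 2) ^ c := by
  have hn0 : (n : ℂ) ≠ 0 := Nat.cast_ne_zero.mpr hn
  have hX : (n : ℂ) ^ (-(s - ((2 * b + k : ℕ) : ℂ) / 2 + (k : ℂ) / 2)) =
      (α * β) ^ b * (n : ℂ) ^ (-s) := by
    rw [hαβ, ← Complex.cpow_natCast, ← Complex.cpow_add _ _ hn0]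
    congr 1
    push_cast
    ring
  have e1 : α ^ b * β ^ (b + k) * (n : ℂ) ^ (-s) = β ^ k * ((α * β) ^ b * (n : ℂ) ^ (-s)) := by
    rw [pow_add, mul_pow]
    ring
  have e2 : α ^ (b + k) * β ^ b * (n : ℂ) ^ (-s) = α ^ k * ((α * β) ^ b * (n : ℂ) ^ (-s)) := by
    rw [pow_add, mul_pow]
    ring
  unfold ef
  rw [hX, e1, e2, ← mul_pow, ← inv_pow]
  congr 2
  ring

theorem locH_even (h : ℕ → ℕ) (m : ℕ) (hh : ∀ a ≤ 2 * m, h (2 * m - a) = h a) {α β : ℂ} {n : ℕ}
    (hn : n ≠ 0) (hαβ : α * β = n) (s : ℂ) :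
    (locH h (2 * m) α β n s)⁻¹ = ((1 - (n : ℂ) ^ (-(s - ((2 * m : ℕ) : ℂ) / 2)))⁻¹) ^ h m *
      ∏ l ∈ Finset.range m, ef (2 * l + 2) α β n (s - ((2 * m : ℕ) : ℂ) / 2) ^ h (m - 1 - l) := by
  have hn0 : (n : ℂ) ≠ 0 := Nat.cast_ne_zero.mpr hn
  unfold locH
  have e0 : 2 * m + 1 = m + (m + 1) := by ring
  have hmid : (n : ℂ) ^ (-(s - ((2 * m : ℕ) : ℂ) / 2)) = α ^ m * β ^ (2 * m - m) * (n : ℂ) ^ (-s) := by
    have e1 : 2 * m - m = m := by omega
    rw [e1, ← mul_pow, hαβ, ← Complex.cpow_natCast, ← Complex.cpow_add _ _ hn0]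
    congr 1
    push_cast
    ring
  rw [hmid, e0, Finset.prod_range_add, Finset.prod_range_succ', ← Finset.prod_range_reflect _ m,
    ← mul_assoc, ← Finset.prod_mul_distrib, mul_inv, ← Finset.prod_inv_distrib, mul_comm,
    add_zero, inv_pow]
  congr 1
  refine Finset.prod_congr rfl fun l hl => ?_
  have hl' : l + 1 ≤ m := Finset.mem_range.mp hl
  have e1 : 2 * m - (m - 1 - l) = (m - 1 - l) + (2 * l + 2) := by omega
  have e2 : m + (l + 1) = (m - 1 - l) + (2 * l + 2) := by omega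
  have e3 : 2 * m - ((m - 1 - l) + (2 * l + 2)) = m - 1 - l := by omega
  have e4 : h ((m - 1 - l) + (2 * l + 2)) = h (m - 1 - l) := by
    have := hh (m - 1 - l) (by omega)
    rw [e1] at this
    exact this
  have e5 : 2 * m = 2 * (m - 1 - l) + (2 * l + 2) := by omega
  rw [e2, e1, e3, e4, pair_ef (m - 1 - l) (2 * l + 2) _ hn hαβ s, ← e5]

theorem locH_odd (h : ℕ → ℕ) (m : ℕ) (hh : ∀ a ≤ 2 * m + 1, h (2 * m + 1 - a) = h a) {α β : ℂ}
    {n : ℕ} (hn : n ≠ 0) (hαβ : α * β = n) (s : ℂ) :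
    (locH h (2 * m + 1) α β n s)⁻¹ = ∏ l ∈ Finset.range (m + 1),
      ef (2 * l + 1) α β n (s - ((2 * m + 1 : ℕ) : ℂ) / 2) ^ h (m - l) := by
  unfold locH
  have e0 : 2 * m + 1 + 1 = (m + 1) + (m + 1) := by ring
  rw [e0, Finset.prod_range_add, ← Finset.prod_range_reflect _ (m + 1), ← Finset.prod_mul_distrib,
    ← Finset.prod_inv_distrib]
  refine Finset.prod_congr rfl fun l hl => ?_
  have hl' : l ≤ m := by have := Finset.mem_range.mp hl; omega
  have e1 : m + 1 - 1 - l = m - l := by omega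
  have e2 : 2 * m + 1 - (m - l) = (m - l) + (2 * l + 1) := by omega
  have e3 : m + 1 + l = (m - l) + (2 * l + 1) := by omega
  have e4 : 2 * m + 1 - ((m - l) + (2 * l + 1)) = m - l := by omega
  have e5 : h ((m - l) + (2 * l + 1)) = h (m - l) := by
    have := hh (m - l) (by omega)
    rw [e2] at this
    exact this
  have e6 : 2 * m + 1 = 2 * (m - l) + (2 * l + 1) := by omega
  rw [e1, e3, e2, e4, e5, pair_ef (m - l) (2 * l + 1) _ hn hαβ s, ← e6]

/-- the local factor in terms of the factors of the Hecke L-functions -/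
theorem locH_eq (h : ℕ → ℕ) (i : ℕ) (hh : ∀ a ≤ i, h (i - a) = h a) {α β : ℂ} {n : ℕ}
    (hn : n ≠ 0) (hαβ : α * β = n) (s : ℂ) :
    (locH h i α β n s)⁻¹ = ((1 - (n : ℂ) ^ (-(s - (i : ℂ) / 2)))⁻¹) ^ c0 h i *
      ∏ l ∈ Finset.range ((i + 1) / 2), ef (kk i l) α β n (s - (i : ℂ) / 2) ^ cl h i l := by
  rcases Nat.even_or_odd' i with ⟨m, rfl | rfl⟩
  · rw [locH_even h m hh hn hαβ s]
    have e1 : c0 h (2 * m) = h m := by
      unfold c0
      rw [if_pos (by omega)]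
      congr 1
      omega
    have e2 : (2 * m + 1) / 2 = m := by omega
    rw [e1, e2]
    congr 1
    refine Finset.prod_congr rfl fun l _ => ?_
    have e3 : kk (2 * m) l = 2 * l + 2 := by unfold kk; omega
    have e4 : cl h (2 * m) l = h (m - 1 - l) := by unfold cl; rw [e2]
    rw [e3, e4]
  · rw [locH_odd h m hh hn hαβ s]
    have e1 : c0 h (2 * m + 1) = 0 := by
      unfold c0
      rw [if_neg (by omega)]
    have e2 : (2 * m + 1 + 1) / 2 = m + 1 := by omega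
    rw [e1, e2, pow_zero, one_mul]
    refine Finset.prod_congr rfl fun l hl => ?_
    have hl' : l ≤ m := by have := Finset.mem_range.mp hl; omega
    have e3 : kk (2 * m + 1) l = 2 * l + 1 := by unfold kk; omega
    have e4 : cl h (2 * m + 1) l = h (m - l) := by
      unfold cl
      rw [e2]
      congr 1
    rw [e3, e4]

/-- the sum of the multiplicities -/
theorem sum_c (h : ℕ → ℕ) (i : ℕ) (hh : ∀ a ≤ i, h (i - a) = h a) :
    c0 h i + 2 * ∑ l ∈ Finset.range ((i + 1) / 2), cl h i l = ∑ a ∈ Finset.range (i + 1), h a := by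
  rcases Nat.even_or_odd' i with ⟨m, rfl | rfl⟩
  · have e1 : c0 h (2 * m) = h m := by
      unfold c0
      rw [if_pos (by omega)]
      congr 1
      omega
    have e2 : (2 * m + 1) / 2 = m := by omega
    have e0 : 2 * m + 1 = m + (m + 1) := by ring
    have e3 : ∀ l ∈ Finset.range m, cl h (2 * m) l = h (m - 1 - l) := by
      intro l _
      unfold cl
      rw [e2]
    rw [e1, e2, Finset.sum_congr rfl e3]
    conv_rhs => rw [e0, Finset.sum_range_add, Finset.sum_range_succ',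
      ← Finset.sum_range_reflect _ m]
    have e4 : ∀ l ∈ Finset.range m, h (m + (l + 1)) = h (m - 1 - l) := by
      intro l hl
      have hl' : l + 1 ≤ m := Finset.mem_range.mp hl
      have := hh (m - 1 - l) (by omega)
      rw [← this]
      congr 1
      omega
    rw [Finset.sum_congr rfl e4, add_zero]
    ring
  · have e1 : c0 h (2 * m + 1) = 0 := by
      unfold c0
      rw [if_neg (by omega)]
    have e2 : (2 * m + 1 + 1) / 2 = m + 1 := by omega
    have e0 : 2 * m + 1 + 1 = (m + 1) + (m + 1) := by ring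
    have e3 : ∀ l ∈ Finset.range (m + 1), cl h (2 * m + 1) l = h (m + 1 - 1 - l) := by
      intro l _
      unfold cl
      rw [e2]
    rw [e1, e2, Finset.sum_congr rfl e3]
    conv_rhs => rw [e0, Finset.sum_range_add, ← Finset.sum_range_reflect _ (m + 1)]
    have e4 : ∀ l ∈ Finset.range (m + 1), h (m + 1 + l) = h (m + 1 - 1 - l) := by
      intro l hl
      have hl' : l ≤ m := by have := Finset.mem_range.mp hl; omega
      have := hh (m + 1 - 1 - l) (by omega)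
      rw [← this]
      congr 1
      omega
    rw [Finset.sum_congr rfl e4]
    ring

/-- the size of `kk` -/
theorem kk_le {h : ℕ → ℕ} {i w : ℕ} (hw : ∀ a ≤ i, h a ≠ 0 → i ≤ 2 * a + w) {l : ℕ}
    (hl : l ∈ Finset.range ((i + 1) / 2)) (hc : cl h i l ≠ 0) : kk i l ≤ w := by
  rw [Finset.mem_range] at hl
  unfold cl at hc
  have h1 := hw ((i + 1) / 2 - 1 - l) (by omega) hc
  unfold kk
  omega

theorem locH_diff (h : ℕ → ℕ) (i : ℕ) (α β : ℂ) {n : ℕ} (hn : 2 ≤ n) :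
    Differentiable ℂ (locH h i α β n) := by
  unfold locH
  refine Differentiable.fun_finsetProd fun a _ => Differentiable.pow ?_ _
  refine (differentiable_const _).sub ((differentiable_const _).mul ?_)
  have h0 : (n : ℂ) ≠ 0 := by
    have : n ≠ 0 := by omega
    exact_mod_cast this
  exact differentiable_id.neg.const_cpow (Or.inl h0)

theorem locH_ne (h : ℕ → ℕ) (i : ℕ) {α β : ℂ} {n : ℕ} (hn : 2 ≤ n) (h1 : ‖α‖ ^ 2 = n)
    (h2 : ‖β‖ ^ 2 = n) {s : ℂ} (hs : (i : ℝ) / 2 < s.re) : locH h i α β n s ≠ 0 := by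
  have hn1 : (1 : ℝ) < n := by exact_mod_cast hn
  have hn0 : (0 : ℝ) < n := by linarith
  have e1 : ‖α‖ = (n : ℝ) ^ (1 / 2 : ℝ) := by
    rw [← Real.sqrt_eq_rpow, eq_comm, Real.sqrt_eq_iff_mul_self_eq hn0.le (norm_nonneg _), ← sq, h1]
  have e2 : ‖β‖ = (n : ℝ) ^ (1 / 2 : ℝ) := by
    rw [← Real.sqrt_eq_rpow, eq_comm, Real.sqrt_eq_iff_mul_self_eq hn0.le (norm_nonneg _), ← sq, h2]
  unfold locH
  rw [Finset.prod_ne_zero_iff]
  intro a ha
  rw [Finset.mem_range] at ha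
  refine pow_ne_zero _ ?_
  intro h
  have h3 : α ^ a * β ^ (i - a) * (n : ℂ) ^ (-s) = 1 := (sub_eq_zero.1 h).symm
  have h4 := congrArg norm h3
  rw [norm_one, norm_mul, norm_mul, norm_pow, norm_pow, e1, e2, ← pow_add,
    show a + (i - a) = i by omega, Complex.norm_natCast_cpow_of_pos (by omega), Complex.neg_re,
    ← Real.rpow_natCast, ← Real.rpow_mul hn0.le, ← Real.rpow_add hn0] at h4
  have h5 : (n : ℝ) ^ (1 / 2 * (i : ℝ) + -s.re) < 1 :=
    Real.rpow_lt_one_of_one_lt_of_neg hn1 (by linarith)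
  linarith

end Pool.Agent.V7H44.HL
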