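import Pool.Agent.V7H44.HL.Gen
import Pool.Agent.Y762.EG.Count
import Pool.Agent.Y762.EG.Low
import Pool.Agent.Y762.EG.FinD

/-!
The zeros of the products of the L-functions of one infinity type `k ≥ 1`.
-/

set_option autoImplicit false
set_option maxHeartbeats 4000000

open NumberField IsDedekindDomain Complex Filter Topology Set
open H370 (zset mult NN Nd Ns)
open H385 (ZI RQ im1 chiZ phiQ nrm)
open Pool.Agent.H304R3.HK (UH tc one_le_norm_tc)
open Pool.Agent.Y762.HK (PrimData Fam)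
open Pool.Agent.Y762.EG (FQk FEk FEk_diff pair_cnt SN SS SN_eq SS_eq low_k nrm_two2 norm_star'
  nrm_star' fac_props)
open Pool.Agent.W354.PK (LK)
open Pool.Agent.W164.RC (two2 two_dvd_star phiQ_star)
open Pool.Agent.W354.HW (cnt strip line NN_eq Ns_le zset_eq)

namespace Pool.Agent.V7H44.HL

/-- both moduli -/
noncomputable def PE (pr : (q : ZI) → MulChar (RQ q) ℂ → (ZI →* ℂ)) (q : ZI) (k : ℕ) (s : ℂ) : ℂ :=
  FEk pr q k s * FEk pr (star q) k s

section
variable (cd : (q : ZI) → MulChar (RQ q) ℂ → ZI)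
    (pr : (q : ZI) → MulChar (RQ q) ℂ → (ZI →* ℂ))
    (hprim : ∀ q : ZI, q ≠ 0 → ∀ χ, PrimData q χ (cd q χ) (pr q χ))

include hprim

theorem PE_diff {q : ZI} (hq : q ≠ 0) {k : ℕ} (hk : 1 ≤ k) : Differentiable ℂ (PE pr q k) := by
  have hq' : star q ≠ 0 := fun h => hq (by rw [← star_star q, h, star_zero])
  exact (FEk_diff cd pr hprim hq hk).mul (FEk_diff cd pr hprim hq' hk)

theorem PE_cnt {q : ZI} (hq : q ≠ 0) {k : ℕ} (hk : 1 ≤ k) {T : ℝ} (hT : 1 ≤ T) {W : Set ℂ}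
    (hW : W ⊆ strip T (2 * T)) : NF (PE pr q k) W ∧
      cnt (PE pr q k) W = ∑ χ ∈ FQk q k, cnt (LK k (pr q χ)) W +
        ∑ χ ∈ FQk (star q) k, cnt (LK k (pr (star q) χ)) W := by
  obtain ⟨h1, h2, h3⟩ := pair_cnt cd pr hprim hq hk hT hW
  exact ⟨⟨fun s _ => (PE_diff cd pr hprim hq hk).analyticAt s, h2, h3⟩, h1⟩

theorem PE_strip {q : ZI} (hq : q ≠ 0) {k : ℕ} (hk : 1 ≤ k) {T : ℝ} (hT : 1 ≤ T) :
    (cnt (PE pr q k) (strip T (2 * T)) : ℝ) = (SN pr q k T : ℝ) + (SN pr (star q) k T : ℝ) := by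
  rw [(PE_cnt cd pr hprim hq hk hT subset_rfl).2]
  unfold SN
  push_cast
  congr 1
  · exact Finset.sum_congr rfl fun χ _ => by rw [NN_eq]
  · exact Finset.sum_congr rfl fun χ _ => by rw [NN_eq]

theorem PE_line {q : ZI} (hq : q ≠ 0) {k : ℕ} (hk : 1 ≤ k) {T : ℝ} (hT : 1 ≤ T) :
    (SS pr q k T : ℝ) + (SS pr (star q) k T : ℝ) ≤ (cnt (PE pr q k) (line T (2 * T)) : ℝ) := by
  have hq' : star q ≠ 0 := fun h => hq (by rw [← star_star q, h, star_zero])
  rw [(PE_cnt cd pr hprim hq hk hT (line_sub T (2 * T))).2]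
  unfold SS
  push_cast
  refine add_le_add ?_ ?_
  · refine Finset.sum_le_sum fun χ hχ => ?_
    exact_mod_cast Ns_le _ _ _ (fac_props cd pr hprim hq hk hT χ hχ).2.2.1
  · refine Finset.sum_le_sum fun χ hχ => ?_
    exact_mod_cast Ns_le _ _ _ (fac_props cd pr hprim hq' hk hT χ hχ).2.2.1

/-- one infinity type -/
theorem pos_main : ∃ C0 η : ℝ, 1 ≤ C0 ∧ 0 < η ∧ ∀ (q : ZI) (k : ℕ) (T : ℝ), q ≠ 0 → two2 ∣ q →
    1 ≤ k → C0 * (1 + Real.sqrt (Real.log (‖tc q‖ ^ 2))) ≤ T → T ≤ ‖tc q‖ ^ η →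
    (k : ℝ) ≤ ‖tc q‖ ^ η →
    0.6725 * (cnt (PE pr q k) (strip T (2 * T)) : ℝ) ≤ (cnt (PE pr q k) (line T (2 * T)) : ℝ) ∧
    2 * (T * ((phiQ q : ℝ) / 4)) ≤ (cnt (PE pr q k) (strip T (2 * T)) : ℝ) := by
  obtain ⟨η, Ca, hη, hη2, hCa, Ha⟩ := Pool.Agent.Y762.HK.hk_6725 cd pr hprim
  obtain ⟨Cb, hCb, Hb⟩ := low_k cd pr hprim
  refine ⟨2 * Ca + 2 * Cb + 9, η, by linarith, hη, ?_⟩
  intro q k T hq h2 hk hT hT2 hk2
  have hq' : star q ≠ 0 := fun h => hq (by rw [← star_star q, h, star_zero])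
  have hns : ‖tc (star q)‖ = ‖tc q‖ := norm_star' q
  have hQ1 : 1 ≤ ‖tc q‖ := one_le_norm_tc hq
  obtain ⟨Q, hQ⟩ : ∃ Q : ℝ, Q = ‖tc q‖ := ⟨_, rfl⟩
  rw [← hQ] at hT hT2 hk2 hQ1 hns
  have hlogQ : 0 ≤ Real.log Q := Real.log_nonneg hQ1
  have hlog2 : Real.log (Q ^ 2) = 2 * Real.log Q := by
    rw [Real.log_pow]
    push_cast
    ring
  have hs0 : 0 ≤ Real.sqrt (Real.log (Q ^ 2)) := Real.sqrt_nonneg _
  have hk1 : (1 : ℝ) ≤ k := by exact_mod_cast hk
  have hQη : 1 ≤ Q ^ η := Real.one_le_rpow hQ1 hη.le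
  have hQ0 : 0 < Q := by linarith
  have hlogη : Real.log (Q ^ η) = η * Real.log Q := Real.log_rpow hQ0 η
  have hT9 : 9 ≤ T := by
    refine le_trans ?_ hT
    nlinarith
  have hT0 : 0 < T := by linarith
  -- the size of the logarithm
  have hl1 : Real.log (Q * (k + 1)) ≤ 1 + Real.log (Q ^ 2) := by
    rw [Real.log_mul (by positivity) (by positivity), hlog2]
    have h3 : Real.log ((k : ℝ) + 1) ≤ Real.log (2 * Q ^ η) :=
      Real.log_le_log (by positivity) (by linarith)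
    rw [Real.log_mul (by norm_num) (by positivity), hlogη] at h3
    have h4 : Real.log 2 ≤ 1 := by linarith [Real.log_two_lt_d9]
    have h5 : η * Real.log Q ≤ 1 * Real.log Q := mul_le_mul_of_nonneg_right (by linarith) hlogQ
    linarith
  have hl2 : Real.sqrt (Real.log (Q * (k + 1))) ≤ 1 + Real.sqrt (Real.log (Q ^ 2)) :=
    (Real.sqrt_le_sqrt hl1).trans (sqrt_one_add (by rw [hlog2]; linarith))
  have hth : ∀ C : ℝ, 0 ≤ C → 2 * C ≤ 2 * Ca + 2 * Cb + 9 →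
      C * (1 + Real.sqrt (Real.log (Q * (k + 1)))) ≤ T := by
    intro C hC0 hC
    refine le_trans ?_ hT
    calc C * (1 + Real.sqrt (Real.log (Q * (k + 1)))) ≤
        C * (2 * (1 + Real.sqrt (Real.log (Q ^ 2)))) :=
          mul_le_mul_of_nonneg_left (by linarith) hC0
      _ = 2 * C * (1 + Real.sqrt (Real.log (Q ^ 2))) := by ring
      _ ≤ _ := mul_le_mul_of_nonneg_right hC (by linarith)
  have hTa := hth Ca (by linarith) (by linarith)
  have hTb := hth Cb (by linarith) (by linarith)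
  -- the second condition
  have hX : Real.exp (2 * (1 - η) * Real.log (Q * (k + ((1 : ℕ) : ℝ) + T))) ≤
      Q ^ 2 * ((1 : ℕ) : ℝ) * T := by
    have hY0 : (0 : ℝ) < k + ((1 : ℕ) : ℝ) + T := by push_cast; linarith
    have hY1 : (1 : ℝ) ≤ k + ((1 : ℕ) : ℝ) + T := by push_cast; linarith
    have hY3 : k + ((1 : ℕ) : ℝ) + T ≤ 3 * Q ^ η := by push_cast; linarith
    have hlY0 : 0 ≤ Real.log (k + ((1 : ℕ) : ℝ) + T) := Real.log_nonneg hY1
    have hlY : Real.log (k + ((1 : ℕ) : ℝ) + T) ≤ Real.log 3 + η * Real.log Q := by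
      rw [← hlogη, ← Real.log_mul (by norm_num) (by positivity)]
      exact Real.log_le_log hY0 hY3
    rw [Real.log_mul (by positivity) (by positivity)]
    have h3 : Q ^ 2 * ((1 : ℕ) : ℝ) * T = Real.exp (2 * Real.log Q + Real.log T) := by
      rw [Real.exp_add, Real.exp_log hT0, ← hlog2, Real.exp_log (by positivity)]
      push_cast
      ring
    rw [h3]
    apply Real.exp_le_exp.2
    have h9 : 2 * Real.log 3 ≤ Real.log T := by
      have : 2 * Real.log 3 = Real.log (3 ^ 2) := by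
        rw [Real.log_pow]
        push_cast
        ring
      rw [this]
      exact Real.log_le_log (by norm_num) (by linarith)
    have h10 : (1 - η) * Real.log (k + ((1 : ℕ) : ℝ) + T) ≤
        1 * Real.log (k + ((1 : ℕ) : ℝ) + T) := mul_le_mul_of_nonneg_right (by linarith) hlY0
    linarith
  obtain ⟨-, b1, -⟩ := Ha q k 1 T hq hk le_rfl (by rw [← hQ]; push_cast; exact hTa)
    (by rw [← hQ]; exact hX)
  obtain ⟨-, b2, -⟩ := Ha (star q) k 1 T hq' hk le_rfl (by rw [hns]; push_cast; exact hTa)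
    (by rw [hns]; exact hX)
  rw [SN_eq pr hq, SS_eq pr hq] at b1
  rw [SN_eq pr hq', SS_eq pr hq'] at b2
  have hq4 : 4 < nrm q := nrm_two2 hq h2
  have hq4' : 4 < nrm (star q) := by rw [nrm_star']; exact hq4
  have c1 := Hb q k T hq hq4 hk (by rw [← hQ]; exact hTb)
  have c2 := Hb (star q) k T hq' hq4' hk (by rw [hns]; exact hTb)
  rw [phiQ_star] at c2
  have e1 := PE_strip cd pr hprim hq hk (T := T) (by linarith)
  have e2 := PE_line cd pr hprim hq hk (T := T) (by linarith)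
  constructor
  · rw [e1]
    linarith
  · rw [e1]
    linarith

end

end Pool.Agent.V7H44.HL
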