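import Pool.Agent.V7H44.HL.Count0
import Pool.Agent.V7H44.HL.Pos
import Pool.Agent.V7H44.HL.Loc
import Pool.Agent.Y762.EG.Place

/-!
The L-function of a cohomology group of type `E` with given Hodge numbers over the ray class field.
-/

set_option autoImplicit false
set_option maxHeartbeats 4000000

open NumberField IsDedekindDomain Complex Filter Topology Set
open H370 (zset mult NN Nd Ns)
open H385 (ZI RQ im1 chiZ phiQ nrm)
open Pool.Agent.H304R3.HK (UH tc one_le_norm_tc)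
open Pool.Agent.Y762.HK (PrimData)
open Pool.Agent.Y762.EG (Roots hasProd_Kk efk rt rt_spec rt_norm SP mem_SP two_mem)
open Pool.Agent.H921R2.TatePole (below nm nm_eq two_le_nm)
open Pool.Agent.W164.RC (two2 IsRayClassField tr)
open Pool.Agent.W354.HW (cnt strip line NN_eq Ns_le zset_eq)

namespace Pool.Agent.V7H44.HL

/-- the L-function shifted to the critical line `Re s = 1/2` -/
noncomputable def LT (pr : (q : ZI) → MulChar (RQ q) ℂ → (ZI →* ℂ)) (q : ZI) (h : ℕ → ℕ) (i : ℕ)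
    (s : ℂ) : ℂ :=
  FE0 pr q s ^ c0 h i * ∏ l ∈ Finset.range ((i + 1) / 2), PE pr q (kk i l) s ^ cl h i l

theorem hasProd_pow {ι : Type*} {f : ι → ℂ} {a : ℂ} (h : HasProd f a) (c : ℕ) :
    HasProd (fun b => f b ^ c) (a ^ c) := by
  induction c with
  | zero => simp only [pow_zero]; exact hasProd_one
  | succ c ih =>
    have := ih.mul h
    simp only [pow_succ]
    exact this

section
variable (cd : (q : ZI) → MulChar (RQ q) ℂ → ZI)
    (pr : (q : ZI) → MulChar (RQ q) ℂ → (ZI →* ℂ))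
    (hprim : ∀ q : ZI, q ≠ 0 → ∀ χ, PrimData q χ (cd q χ) (pr q χ))

include hprim

theorem PP_diff {q : ZI} (hq : q ≠ 0) (h : ℕ → ℕ) (i : ℕ) : Differentiable ℂ
    (fun s => ∏ l ∈ Finset.range ((i + 1) / 2), PE pr q (kk i l) s ^ cl h i l) :=
  Differentiable.fun_finsetProd fun l _ => (PE_diff cd pr hprim hq (kk_pos i l)).pow _

theorem LT_an {q : ZI} (hq : q ≠ 0) (h : ℕ → ℕ) (i : ℕ) {s : ℂ} (hs : s ≠ 1) :
    AnalyticAt ℂ (LT pr q h i) s :=
  ((FE0_an cd pr hprim hq hs).pow _).mul ((PP_diff cd pr hprim hq h i).analyticAt s)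

theorem LT_entire {q : ZI} (hq : q ≠ 0) (h : ℕ → ℕ) (i : ℕ) : ∃ G : ℂ → ℂ, Differentiable ℂ G ∧
    ∀ s : ℂ, s ≠ 1 → (s - 1) ^ c0 h i * LT pr q h i s = G s := by
  obtain ⟨G, hG, hG2⟩ := FE0_entire cd pr hprim hq
  refine ⟨fun s => G s ^ c0 h i *
    ∏ l ∈ Finset.range ((i + 1) / 2), PE pr q (kk i l) s ^ cl h i l,
    (hG.pow _).mul (PP_diff cd pr hprim hq h i), fun s hs => ?_⟩
  show (s - 1) ^ c0 h i * LT pr q h i s = G s ^ c0 h i *
    ∏ l ∈ Finset.range ((i + 1) / 2), PE pr q (kk i l) s ^ cl h i l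
  rw [← hG2 s hs, mul_pow]
  unfold LT
  ring

theorem LT_odd {q : ZI} (hq : q ≠ 0) (h : ℕ → ℕ) (i : ℕ) (hc : c0 h i = 0) :
    Differentiable ℂ (LT pr q h i) := by
  have e : LT pr q h i = fun s => ∏ l ∈ Finset.range ((i + 1) / 2), PE pr q (kk i l) s ^ cl h i l := by
    funext s
    unfold LT
    rw [hc, pow_zero, one_mul]
  rw [e]
  exact PP_diff cd pr hprim hq h i

theorem LT_cnt {q : ZI} (hq : q ≠ 0) (h : ℕ → ℕ) (i : ℕ) {T : ℝ} (hT : 1 ≤ T) {W : Set ℂ}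
    (hW : W ⊆ strip T (2 * T)) : NF (LT pr q h i) W ∧
      cnt (LT pr q h i) W = c0 h i * cnt (FE0 pr q) W +
        ∑ l ∈ Finset.range ((i + 1) / 2), cl h i l * cnt (PE pr q (kk i l)) W := by
  have h1 := (FE0_cnt cd pr hprim hq hT hW).1.pow (c0 h i)
  have h2 := NF.prodpow (Finset.range ((i + 1) / 2)) (fun l => PE pr q (kk i l)) (cl h i) (W := W)
    fun l _ => (PE_cnt cd pr hprim hq (kk_pos i l) hT hW).1
  have h3 := h1.1.mul h2.1
  refine ⟨h3.1, ?_⟩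
  have e : cnt (LT pr q h i) W = cnt (fun z => FE0 pr q z ^ c0 h i) W +
    cnt (fun z => ∏ l ∈ Finset.range ((i + 1) / 2), PE pr q (kk i l) z ^ cl h i l) W := h3.2
  rw [e, h1.2, h2.2]

/-- all the Hodge numbers -/
theorem hl_main : ∃ C0 η : ℝ, 1 ≤ C0 ∧ 0 < η ∧ ∀ (q : ZI) (h : ℕ → ℕ) (i w : ℕ) (T : ℝ), q ≠ 0 →
    two2 ∣ q → (∀ a ≤ i, h (i - a) = h a) → (∀ a ≤ i, h a ≠ 0 → i ≤ 2 * a + w) →
    (w : ℝ) ≤ ‖tc q‖ ^ η → C0 * (1 + Real.sqrt (Real.log (‖tc q‖ ^ 2))) ≤ T → T ≤ ‖tc q‖ ^ η →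
    0.6725 * (cnt (LT pr q h i) (strip T (2 * T)) : ℝ) ≤
      (cnt (LT pr q h i) (line T (2 * T)) : ℝ) ∧
    ((∑ a ∈ Finset.range (i + 1), h a : ℕ) : ℝ) * ((phiQ q : ℝ) / 4) * T ≤
      (cnt (LT pr q h i) (strip T (2 * T)) : ℝ) := by
  obtain ⟨Ca, ηa, hCa, hηa, Ha⟩ := zero_main cd pr hprim
  obtain ⟨Cb, ηb, hCb, hηb, Hb⟩ := pos_main cd pr hprim
  refine ⟨Ca + Cb, min ηa ηb, by linarith, lt_min hηa hηb, ?_⟩
  intro q h i w T hq h2 hh hw hwQ hT hT2
  have hQ1 : 1 ≤ ‖tc q‖ := one_le_norm_tc hq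
  have hs0 : 0 ≤ Real.sqrt (Real.log (‖tc q‖ ^ 2)) := Real.sqrt_nonneg _
  have hth : ∀ C : ℝ, 0 ≤ C → C ≤ Ca + Cb → C * (1 + Real.sqrt (Real.log (‖tc q‖ ^ 2))) ≤ T :=
    fun C hC0 hC => (mul_le_mul_of_nonneg_right hC (by linarith)).trans hT
  have hT1 : 1 ≤ T := by
    refine le_trans ?_ (hth Ca (by linarith) (by linarith))
    nlinarith
  have hpa : ‖tc q‖ ^ min ηa ηb ≤ ‖tc q‖ ^ ηa :=
    Real.rpow_le_rpow_of_exponent_le hQ1 (min_le_left _ _)
  have hpb : ‖tc q‖ ^ min ηa ηb ≤ ‖tc q‖ ^ ηb :=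
    Real.rpow_le_rpow_of_exponent_le hQ1 (min_le_right _ _)
  obtain ⟨a1, a2⟩ := Ha q T hq h2 (hth Ca (by linarith) (by linarith)) (hT2.trans hpa)
  have hb : ∀ l ∈ Finset.range ((i + 1) / 2), cl h i l ≠ 0 →
      0.6725 * (cnt (PE pr q (kk i l)) (strip T (2 * T)) : ℝ) ≤
        (cnt (PE pr q (kk i l)) (line T (2 * T)) : ℝ) ∧
      2 * (T * ((phiQ q : ℝ) / 4)) ≤ (cnt (PE pr q (kk i l)) (strip T (2 * T)) : ℝ) := by
    intro l hl hc
    have hk := kk_le hw hl hc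
    have hkR : ((kk i l : ℕ) : ℝ) ≤ w := by exact_mod_cast hk
    exact Hb q (kk i l) T hq h2 (kk_pos i l) (hth Cb (by linarith) (by linarith)) (hT2.trans hpb)
      ((hkR.trans hwQ).trans hpb)
  have e1 := (LT_cnt cd pr hprim hq h i hT1 (subset_rfl : strip T (2 * T) ⊆ strip T (2 * T))).2
  have e2 := (LT_cnt cd pr hprim hq h i hT1 (line_sub T (2 * T))).2
  rw [e1, e2]
  push_cast
  constructor
  · rw [mul_add, Finset.mul_sum]
    refine add_le_add ?_ (Finset.sum_le_sum fun l hl => ?_)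
    · have h3 : (0 : ℝ) ≤ (c0 h i : ℝ) := Nat.cast_nonneg _
      have h4 := mul_le_mul_of_nonneg_left a1 h3
      linarith
    · by_cases hc : cl h i l = 0
      · rw [hc]
        simp
      · have h3 : (0 : ℝ) ≤ (cl h i l : ℝ) := Nat.cast_nonneg _
        have h4 := mul_le_mul_of_nonneg_left (hb l hl hc).1 h3
        linarith
  · have e3 : (∑ a ∈ Finset.range (i + 1), (h a : ℝ)) =
        (c0 h i : ℝ) + 2 * ∑ l ∈ Finset.range ((i + 1) / 2), (cl h i l : ℝ) := by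
      have := sum_c h i hh
      exact_mod_cast this.symm
    rw [e3]
    have e4 : ((c0 h i : ℝ) + 2 * ∑ l ∈ Finset.range ((i + 1) / 2), (cl h i l : ℝ)) *
        ((phiQ q : ℝ) / 4) * T = (c0 h i : ℝ) * (T * ((phiQ q : ℝ) / 4)) +
        ∑ l ∈ Finset.range ((i + 1) / 2), (cl h i l : ℝ) * (2 * (T * ((phiQ q : ℝ) / 4))) := by
      rw [← Finset.sum_mul]
      ring
    rw [e4]
    refine add_le_add ?_ (Finset.sum_le_sum fun l hl => ?_)
    · exact mul_le_mul_of_nonneg_left a2 (Nat.cast_nonneg _)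
    · by_cases hc : cl h i l = 0
      · rw [hc]
        simp
      · exact mul_le_mul_of_nonneg_left (hb l hl hc).2 (Nat.cast_nonneg _)

section
variable {q : ZI} {K : Type} [Field K] [NumberField K] {ι : ZI →+* 𝓞 K}
  {art : (RQ q)ˣ →* (𝓞 K ≃+* 𝓞 K)}

/-- the Euler product over the places of the ray class field -/
theorem hasProd_LT (hq : q ≠ 0) (h2 : two2 ∣ q) (H : IsRayClassField q K ι art)
    (α β : HeightOneSpectrum (𝓞 K) → ℂ) (hR : Roots q ι α β)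
    (h : ℕ → ℕ) (i : ℕ) (hh : ∀ a ≤ i, h (i - a) = h a) {s : ℂ} (hs : 1 + (i : ℝ) / 2 < s.re) :
    HasProd (open Classical in fun v : HeightOneSpectrum (𝓞 K) =>
      if ι q ∈ v.asIdeal then 1
      else (locH h i (α v) (β v) (Ideal.absNorm v.asIdeal) s)⁻¹)
      (LT pr q h i (s - (i : ℂ) / 2)) := by
  classical
  have hre : (1 : ℝ) < (s - (i : ℂ) / 2).re := by
    have : ((i : ℂ) / 2).re = (i : ℝ) / 2 := by
      rw [show ((i : ℂ) / 2) = (((i : ℝ) / 2 : ℝ) : ℂ) by push_cast; rfl]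
      exact Complex.ofReal_re _
    rw [Complex.sub_re, this]
    linarith
  have h0 := hasProd_pow (hasProd_K0 cd pr hprim hq h2 H hre) (c0 h i)
  have h1 : HasProd (fun v : HeightOneSpectrum (𝓞 K) => ∏ l ∈ Finset.range ((i + 1) / 2),
      (if ι q ∈ v.asIdeal then 1 else efk (kk i l) (α v) (β v) (Ideal.absNorm v.asIdeal)
        (s - (i : ℂ) / 2)) ^ cl h i l)
      (∏ l ∈ Finset.range ((i + 1) / 2), PE pr q (kk i l) (s - (i : ℂ) / 2) ^ cl h i l) :=
    hasProd_prod fun l _ =>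
      hasProd_pow (hasProd_Kk cd pr hprim hq h2 H α β hR (kk_pos i l) hre) (cl h i l)
  have h3 := h0.mul h1
  have hfun : (fun v : HeightOneSpectrum (𝓞 K) => if ι q ∈ v.asIdeal then 1
      else (locH h i (α v) (β v) (Ideal.absNorm v.asIdeal) s)⁻¹) =
      fun v : HeightOneSpectrum (𝓞 K) =>
        (if ι q ∈ v.asIdeal then 1
          else (1 - ((Ideal.absNorm v.asIdeal : ℕ) : ℂ) ^ (-(s - (i : ℂ) / 2)))⁻¹) ^ c0 h i *
        ∏ l ∈ Finset.range ((i + 1) / 2),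
        (if ι q ∈ v.asIdeal then 1 else efk (kk i l) (α v) (β v) (Ideal.absNorm v.asIdeal)
          (s - (i : ℂ) / 2)) ^ cl h i l := by
    funext v
    by_cases hv : ι q ∈ v.asIdeal
    · simp only [if_pos hv, one_pow, Finset.prod_const_one, mul_one]
    · simp only [if_neg hv]
      obtain ⟨r1, r2⟩ := hR v hv
      have hn : Ideal.absNorm v.asIdeal ≠ 0 := by
        have := two_le_nm v
        unfold nm at this
        omega
      exact locH_eq h i hh hn r2 s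
  rw [hfun]
  exact h3

omit hprim in
/-- the finite product of local polynomials -/
noncomputable def GH (q : ZI) (ι : ZI →+* 𝓞 K) (N : ℕ) (hN : N ≠ 0) (h : ℕ → ℕ) (i : ℕ)
    (s : ℂ) : ℂ :=
  ∏ v ∈ SP q ι N hN, locH h i (rt v).1 (rt v).2 (Ideal.absNorm v.asIdeal) s

omit hprim in
theorem GH_diff (q : ZI) (ι : ZI →+* 𝓞 K) (N : ℕ) (hN : N ≠ 0) (h : ℕ → ℕ) (i : ℕ) :
    Differentiable ℂ (GH q ι N hN h i) := by
  unfold GH
  exact Differentiable.fun_finsetProd fun v _ => locH_diff h i _ _ (two_le_nm v)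

omit hprim in
theorem GH_ne {q : ZI} (h2 : two2 ∣ q) (ι : ZI →+* 𝓞 K) (N : ℕ) (hN : N ≠ 0) (h : ℕ → ℕ)
    (i : ℕ) {s : ℂ} (hs : (i : ℝ) / 2 < s.re) : GH q ι N hN h i s ≠ 0 := by
  unfold GH
  rw [Finset.prod_ne_zero_iff]
  intro v hv
  rw [mem_SP] at hv
  obtain ⟨h3, h4⟩ := rt_norm v (fun h => hv.1 (two_mem h2 v h))
  exact locH_ne h i (two_le_nm v) h3 h4 hs

/-- the Euler product over the places not dividing `N` -/
theorem hasProd_M (hq : q ≠ 0) (h2 : two2 ∣ q) (H : IsRayClassField q K ι art) (N : ℕ)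
    (hN : N ≠ 0)
    (hqN : ∀ v : HeightOneSpectrum (𝓞 K), ι q ∈ v.asIdeal → (N : 𝓞 K) ∈ v.asIdeal)
    (α β : HeightOneSpectrum (𝓞 K) → ℂ)
    (hR : ∀ v : HeightOneSpectrum (𝓞 K), (N : 𝓞 K) ∉ v.asIdeal → α v + β v = ((tr v : ℤ) : ℂ) ∧
      α v * β v = (((Ideal.absNorm v.asIdeal : ℕ)) : ℂ))
    (h : ℕ → ℕ) (i : ℕ) (hh : ∀ a ≤ i, h (i - a) = h a) {s : ℂ} (hs : 1 + (i : ℝ) / 2 < s.re) :
    HasProd (fun v : {v : HeightOneSpectrum (𝓞 K) // (N : 𝓞 K) ∉ v.asIdeal} =>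
      (locH h i (α v) (β v) (Ideal.absNorm v.1.asIdeal) s)⁻¹)
      (LT pr q h i (s - (i : ℂ) / 2) * GH q ι N hN h i s) := by
  classical
  set α' : HeightOneSpectrum (𝓞 K) → ℂ := fun v => if (N : 𝓞 K) ∈ v.asIdeal then (rt v).1 else α v
    with hα'
  set β' : HeightOneSpectrum (𝓞 K) → ℂ := fun v => if (N : 𝓞 K) ∈ v.asIdeal then (rt v).2 else β v
    with hβ'
  have hR' : Roots q ι α' β' := by
    intro v _
    rw [hα', hβ']
    by_cases h : (N : 𝓞 K) ∈ v.asIdeal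
    · simp only [if_pos h]
      exact rt_spec v
    · simp only [if_neg h]
      exact hR v h
  have h1 := hasProd_LT cd pr hprim hq h2 H α' β' hR' h i hh hs
  have hs' : (i : ℝ) / 2 < s.re := by linarith
  have h3 : HasProd (fun v : HeightOneSpectrum (𝓞 K) =>
      if v ∈ SP q ι N hN then locH h i (rt v).1 (rt v).2 (Ideal.absNorm v.asIdeal) s
      else 1) (GH q ι N hN h i s) := by
    have h4 : GH q ι N hN h i s = ∏ v ∈ SP q ι N hN, (if v ∈ SP q ι N hN then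
        locH h i (rt v).1 (rt v).2 (Ideal.absNorm v.asIdeal) s else 1) := by
      unfold GH
      exact Finset.prod_congr rfl fun v hv => by rw [if_pos hv]
    rw [h4]
    apply hasProd_prod_of_ne_finset_one
    intro v hv
    rw [if_neg hv]
  have h5 := h1.mul h3
  have h6 : (fun v : HeightOneSpectrum (𝓞 K) => (if ι q ∈ v.asIdeal then (1 : ℂ)
      else (locH h i (α' v) (β' v) (Ideal.absNorm v.asIdeal) s)⁻¹) *
      (if v ∈ SP q ι N hN then locH h i (rt v).1 (rt v).2 (Ideal.absNorm v.asIdeal) s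
      else 1)) = Set.mulIndicator {v : HeightOneSpectrum (𝓞 K) | (N : 𝓞 K) ∉ v.asIdeal}
        (fun v => (locH h i (α v) (β v) (Ideal.absNorm v.asIdeal) s)⁻¹) := by
    funext v
    by_cases hv : (N : 𝓞 K) ∈ v.asIdeal
    · rw [Set.mulIndicator_of_notMem (by simpa using hv)]
      by_cases hvq : ι q ∈ v.asIdeal
      · rw [if_pos hvq, if_neg (fun h => ((mem_SP q ι N hN v).1 h).1 hvq), one_mul]
      · have hvS : v ∈ SP q ι N hN := (mem_SP q ι N hN v).2 ⟨hvq, hv⟩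
        rw [if_neg hvq, if_pos hvS]
        have e1 : α' v = (rt v).1 := by rw [hα']; simp only [if_pos hv]
        have e2 : β' v = (rt v).2 := by rw [hβ']; simp only [if_pos hv]
        obtain ⟨k3, k4⟩ := rt_norm v (fun h => hvq (two_mem h2 v h))
        rw [e1, e2]
        exact inv_mul_cancel₀ (locH_ne h i (two_le_nm v) k3 k4 hs')
    · rw [Set.mulIndicator_of_mem (by simpa using hv)]
      have hvq : ι q ∉ v.asIdeal := fun h => hv (hqN v h)
      have e1 : α' v = α v := by rw [hα']; simp only [if_neg hv]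
      have e2 : β' v = β v := by rw [hβ']; simp only [if_neg hv]
      rw [if_neg hvq, if_neg (fun h => hv ((mem_SP q ι N hN v).1 h).2), mul_one, e1, e2]
  rw [h6] at h5
  exact hasProd_subtype_iff_mulIndicator.2 h5

end

end

end Pool.Agent.V7H44.HL
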