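import Pool.Agent.W354.HW.Count

/-!
Functions with finitely many zeros on a set, and their products.
-/

set_option autoImplicit false

open Complex Filter Topology Set
open H370 (zset mult NN Nd Ns)

namespace Pool.Agent.V7H44.HL

open Pool.Agent.W354.HW (cnt strip line cnt_prod mult_prod zeros_prod_finite NN_eq Ns_le zset_eq
  cnt_eq_sum)

/-- analytic, not identically zero and with finitely many zeros on `W` -/
structure NF (f : ℂ → ℂ) (W : Set ℂ) : Prop where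
  an : ∀ s ∈ W, AnalyticAt ℂ f s
  ord : ∀ s ∈ W, analyticOrderAt f s ≠ ⊤
  fin : {s : ℂ | s ∈ W ∧ f s = 0}.Finite

theorem NF.mono {f : ℂ → ℂ} {V W : Set ℂ} (h : NF f W) (hV : V ⊆ W) : NF f V :=
  ⟨fun s hs => h.an s (hV hs), fun s hs => h.ord s (hV hs),
    h.fin.subset fun _ hs => ⟨hV hs.1, hs.2⟩⟩

theorem NF.prodpow {ι : Type*} (S : Finset ι) (f : ι → ℂ → ℂ) (c : ι → ℕ) {W : Set ℂ}
    (h : ∀ i ∈ S, NF (f i) W) : NF (fun z => ∏ i ∈ S, f i z ^ c i) W ∧
      cnt (fun z => ∏ i ∈ S, f i z ^ c i) W = ∑ i ∈ S, c i * cnt (f i) W := by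
  have h1 := fun s (hs : s ∈ W) => mult_prod S f c (s := s) (fun i hi => (h i hi).an s hs)
    (fun i hi => (h i hi).ord s hs)
  exact ⟨⟨fun s hs => (h1 s hs).2.2, fun s hs => (h1 s hs).2.1,
    zeros_prod_finite S f c fun i hi => (h i hi).fin⟩,
    cnt_prod S f c (fun i hi => (h i hi).an) (fun i hi => (h i hi).ord) fun i hi => (h i hi).fin⟩

theorem NF.prod {ι : Type*} (S : Finset ι) (f : ι → ℂ → ℂ) {W : Set ℂ}
    (h : ∀ i ∈ S, NF (f i) W) : NF (fun z => ∏ i ∈ S, f i z) W ∧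
      cnt (fun z => ∏ i ∈ S, f i z) W = ∑ i ∈ S, cnt (f i) W := by
  have h1 := NF.prodpow S f (fun _ => 1) h
  simpa only [pow_one, one_mul] using h1

theorem NF.mul {f g : ℂ → ℂ} {W : Set ℂ} (hf : NF f W) (hg : NF g W) :
    NF (fun z => f z * g z) W ∧ cnt (fun z => f z * g z) W = cnt f W + cnt g W := by
  have h1 := NF.prod (Finset.univ : Finset Bool) (fun b => if b then f else g) (W := W)
    (fun b _ => by cases b <;> simp [hf, hg])
  simpa only [Fintype.prod_bool, Fintype.sum_bool, if_true, Bool.false_eq_true, if_false] using h1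

theorem NF.of_ne {g : ℂ → ℂ} {W : Set ℂ} (hg : ∀ s ∈ W, AnalyticAt ℂ g s)
    (h0 : ∀ s ∈ W, g s ≠ 0) : NF g W ∧ cnt g W = 0 := by
  refine ⟨⟨hg, fun s hs => ?_, ?_⟩, ?_⟩
  · rw [(hg s hs).analyticOrderAt_eq_zero.mpr (h0 s hs)]
    exact ENat.zero_ne_top
  · have : {s : ℂ | s ∈ W ∧ g s = 0} = ∅ := by
      ext s
      simp only [Set.mem_ofPred_eq, Set.mem_empty_iff_false, iff_false]
      exact fun h => h0 s h.1 h.2
    rw [this]
    exact Set.finite_empty
  · rw [cnt_eq_sum (W := W) ∅ (by simp) (fun s hs h => absurd h (h0 s hs)) hg]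
    simp

theorem ne_one {T : ℝ} (hT : 0 ≤ T) {s : ℂ} (hs : s ∈ strip T (2 * T)) : s ≠ 1 := by
  rintro rfl
  have h := hs.2.2.1
  rw [Complex.one_im] at h
  linarith

theorem line_sub (T1 T2 : ℝ) : line T1 T2 ⊆ strip T1 T2 := by
  rintro s ⟨h1, h2, h3⟩
  exact ⟨by rw [h1]; norm_num, by rw [h1]; norm_num, h2, h3⟩

/-- `A log(8Q) ≤ B Q` for large `Q` -/
theorem log_small (A B : ℝ) (hA : 0 < A) (hB : 0 < B) : ∃ X : ℝ, 1 ≤ X ∧ ∀ Q : ℝ, X ≤ Q →
    A * Real.log (8 * Q) ≤ B * Q := by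
  refine ⟨max 1 ((5 * A / B) ^ 2), le_max_left _ _, fun Q hQ => ?_⟩
  have hQ1 : 1 ≤ Q := (le_max_left _ _).trans hQ
  have hQ2 : (5 * A / B) ^ 2 ≤ Q := (le_max_right _ _).trans hQ
  have hs1 : 1 ≤ Real.sqrt Q := Real.one_le_sqrt.2 hQ1
  have hs2 : 5 * A / B ≤ Real.sqrt Q := Real.le_sqrt_of_sq_le hQ2
  have hsq : Real.sqrt Q * Real.sqrt Q = Q := Real.mul_self_sqrt (by linarith)
  have h1 : Real.log (8 * Q) ≤ 5 * Real.sqrt Q := by
    rw [Real.log_mul (by norm_num) (by positivity)]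
    have h8 : Real.log 8 ≤ 3 := by
      rw [show (8 : ℝ) = 2 ^ 3 by norm_num, Real.log_pow]
      have := Real.log_two_lt_d9
      push_cast
      linarith
    have hl : Real.log Q ≤ 2 * Real.sqrt Q := by
      have h2 : Real.log Q = 2 * Real.log (Real.sqrt Q) := by
        conv_lhs => rw [← hsq]
        rw [Real.log_mul (by positivity) (by positivity)]
        ring
      rw [h2]
      have := Real.log_le_sub_one_of_pos (show 0 < Real.sqrt Q by positivity)
      linarith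
    linarith
  have h2 : 5 * A ≤ B * Real.sqrt Q := by
    rw [div_le_iff₀ hB] at hs2
    linarith
  calc A * Real.log (8 * Q) ≤ A * (5 * Real.sqrt Q) := mul_le_mul_of_nonneg_left h1 hA.le
    _ = 5 * A * Real.sqrt Q := by ring
    _ ≤ B * Real.sqrt Q * Real.sqrt Q := mul_le_mul_of_nonneg_right h2 (by positivity)
    _ = B * Q := by rw [mul_assoc, hsq]

theorem NF.pow {f : ℂ → ℂ} {W : Set ℂ} (h : NF f W) (c : ℕ) :
    NF (fun z => f z ^ c) W ∧ cnt (fun z => f z ^ c) W = c * cnt f W := by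
  have h1 := NF.prodpow ({()} : Finset Unit) (fun _ => f) (fun _ => c) (W := W) (fun _ _ => h)
  simpa only [Finset.prod_singleton, Finset.sum_singleton] using h1

theorem sqrt_one_add {x : ℝ} (hx : 0 ≤ x) : Real.sqrt (1 + x) ≤ 1 + Real.sqrt x := by
  have h0 := Real.sqrt_nonneg x
  rw [Real.sqrt_le_left (by linarith)]
  have h1 := Real.sq_sqrt hx
  nlinarith

end Pool.Agent.V7H44.HL
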