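import Pool.Agent.V7H44.HL.Count0
import Pool.Agent.V7H44.HL.Pos
import Pool.Agent.W354.PK.FinK
import Pool.Agent.H304R2.EC.Mult

/-!
The L-functions do not vanish for `Re s ≥ 1`.
-/

set_option autoImplicit false
set_option maxHeartbeats 4000000

open NumberField IsDedekindDomain Complex Filter Topology Set
open H385 (ZI RQ im1 chiZ phiQ nrm)
open Pool.Agent.H304R3.HK (UH tc bb CS lg_bb lam_eq lam_one F_ne_zero F_ld bb_zero)
open Pool.Agent.H82R3.AR (FA FN mem_FN HC LH uh_chi goodH chi_sq)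
open Pool.Agent.Y762.HK (PrimData)
open Pool.Agent.Y762.EG (FQk mem_FQk FEk)
open Pool.Agent.W354.PK (HCk LK bK psik goodK uh_psik psi_sq)
open Pool.Agent.W164.RC (Cq Cq_diff Cq_ne two2)

namespace Pool.Agent.V7H44.HL

/-- twist by `N(a)^(-τ)` -/
noncomputable def tw (h : ZI →* ℂ) (τ : ℂ) : ZI →* ℂ where
  toFun a := if a = 0 then 0 else h a * ((nrm a : ℕ) : ℂ) ^ (-τ)
  map_one' := by
    have e : nrm (1 : ZI) = 1 := by decide
    rw [if_neg one_ne_zero, map_one, e, Nat.cast_one, Complex.one_cpow, one_mul]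
  map_mul' a b := by
    by_cases ha : a = 0
    · simp [ha]
    by_cases hb : b = 0
    · simp [hb]
    have e : nrm (a * b) = nrm a * nrm b := by
      unfold nrm
      rw [Zsqrtd.norm_mul, Int.natAbs_mul]
    rw [if_neg ha, if_neg hb, if_neg (mul_ne_zero ha hb), map_mul, e]
    push_cast
    rw [Complex.natCast_mul_natCast_cpow]
    ring

theorem tw_apply (h : ZI →* ℂ) (τ : ℂ) (a : ZI) :
    tw h τ a = if a = 0 then 0 else h a * ((nrm a : ℕ) : ℂ) ^ (-τ) := rfl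

theorem tw_uh {h : ZI →* ℂ} (hU : UH h) {τ : ℂ} (hτ : τ.re = 0) : UH (tw h τ) where
  h0 := by rw [tw_apply, if_pos rfl]
  hb a := by
    rw [tw_apply]
    split_ifs with ha
    · simp
    · have hn : 0 < nrm a := H385.H10.nrm_pos ha
      rw [norm_mul, Complex.norm_natCast_cpow_of_pos hn, Complex.neg_re, hτ, neg_zero,
        Real.rpow_zero, mul_one]
      exact hU.hb a
  hi := by
    have e : nrm (⟨0, 1⟩ : ZI) = 1 := by decide
    rw [tw_apply, if_neg (by decide), e, Nat.cast_one, Complex.one_cpow, mul_one]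
    exact hU.hi

theorem bb_tw (g g' : ZI → ℂ) (τ : ℂ) (g0 : g 0 = 0) (g0' : g' 0 = 0)
    (hg : ∀ a : ZI, a ≠ 0 → g' a = g a * ((nrm a : ℕ) : ℂ) ^ (-τ)) (n : ℕ) (s : ℂ) :
    bb g' n * (n : ℂ) ^ (-s) = bb g n * (n : ℂ) ^ (-(s + τ)) := by
  rcases Nat.eq_zero_or_pos n with rfl | hn
  · rw [bb_zero g' g0', bb_zero g g0, zero_mul, zero_mul]
  · have hn0 : (n : ℂ) ≠ 0 := by exact_mod_cast hn.ne'
    have h1 : bb g' n = bb g n * (n : ℂ) ^ (-τ) := by
      unfold bb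
      rw [mul_assoc, Finset.sum_mul]
      congr 1
      refine Finset.sum_congr rfl fun p hp => ?_
      unfold CS at hp
      rw [Finset.mem_filter] at hp
      have h3 : (⟨p.1, p.2⟩ : ZI).norm = (n : ℤ) := by
        rw [Pool.Agent.H304R2.EC.A1.norm_def']
        exact hp.2
      have e : nrm (⟨p.1, p.2⟩ : ZI) = n := by
        unfold nrm
        rw [h3]
        rfl
      have ha : (⟨p.1, p.2⟩ : ZI) ≠ 0 := by
        intro h
        rw [h, Zsqrtd.norm_zero] at h3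
        omega
      rw [hg _ ha, e]
    rw [h1, mul_assoc, ← Complex.cpow_add _ _ hn0]
    congr 2
    ring

/-- `L(1 + it, ψ^k χ) ≠ 0` -/
theorem LK_line {k : ℕ} (hk : 1 ≤ k) {q : ZI} {χ : ZI →* ℂ} (H : HCk k q χ) (t : ℝ) :
    LK k χ (⟨1, t⟩ : ℂ) ≠ 0 := by
  obtain ⟨A, hA, hgood⟩ := goodK
  obtain ⟨g1, g2, -, -⟩ := hgood k q χ hk H
  obtain ⟨G, hG, sG⟩ := psi_sq hk q χ H
  have hU := uh_psik H
  by_cases ht : t = 0
  · subst ht
    have hre : ∀ s : ℂ, (s + I).re = s.re := fun s => by simp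
    have hre2 : ∀ s : ℂ, (s + 2 * I).re = s.re := fun s => by simp
    have h1 := Pool.Agent.H304R3.HK.nz_line_of lg_bb lam_eq lam_one F_ne_zero F_ld
      (tw (psik k χ) I) (tw_uh hU Complex.I_re) (fun s => LK k χ (s + I)) (fun s => G (s + 2 * I))
      (g1.comp (differentiable_id.add_const _)) (hG.comp (differentiable_id.add_const _))
      (fun s hs => by
        have h3 := g2 (s + I) (by rw [hre]; exact hs)
        refine h3.congr_fun ?_ |> fun h => h
        intro n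
        exact (bb_tw (psik k χ) (tw (psik k χ) I) I hU.h0 (tw_uh hU Complex.I_re).h0
          (fun a ha => by rw [tw_apply, if_neg ha]) n s))
      (fun s hs => by
        have h3 := sG (s + 2 * I) (by rw [hre2]; exact hs)
        refine h3.congr_fun ?_ |> fun h => h
        intro n
        exact (bb_tw (fun a => (psik k χ a) ^ 2) (fun a => (tw (psik k χ) I a) ^ 2) (2 * I)
          (by show (psik k χ 0) ^ 2 = 0; rw [hU.h0]; norm_num)
          (by show (tw (psik k χ) I 0) ^ 2 = 0; rw [(tw_uh hU Complex.I_re).h0]; norm_num)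
          (fun a ha => by
            show (tw (psik k χ) I a) ^ 2 = (psik k χ a) ^ 2 * _
            rw [tw_apply, if_neg ha, mul_pow, ← Complex.cpow_nat_mul]
            congr 2
            push_cast
            ring) n s))
      (-1) (by norm_num)
    have e : (⟨1, -1⟩ : ℂ) + I = ⟨1, 0⟩ := by
      apply Complex.ext <;> simp
    have h2 : LK k χ ((⟨1, -1⟩ : ℂ) + I) ≠ 0 := h1
    rwa [e] at h2
  · exact Pool.Agent.H304R3.HK.nz_line_of lg_bb lam_eq lam_one F_ne_zero F_ld (psik k χ) hU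
      (LK k χ) G g1 hG g2 sG t ht

theorem LK_ne {k : ℕ} (hk : 1 ≤ k) {q : ZI} {χ : ZI →* ℂ} (H : HCk k q χ) {s : ℂ}
    (hs : 1 ≤ s.re) : LK k χ s ≠ 0 := by
  rcases hs.lt_or_eq with h1 | h1
  · obtain ⟨A, hA, hgood⟩ := goodK
    obtain ⟨g1, g2, -, -⟩ := hgood k q χ hk H
    exact F_ne_zero _ _ (lg_bb (psik k χ) (uh_psik H)) (LK k χ) g2 s h1
  · have h4 : s = ⟨1, s.im⟩ := Complex.ext h1.symm rfl
    rw [h4]
    exact LK_line hk H s.im

theorem LH_ne {q : ZI} {χ : ZI →* ℂ} (H : HC q χ) {s : ℂ} (hs : 1 ≤ s.re) (hs1 : s ≠ 1) :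
    LH χ s ≠ 0 := by
  obtain ⟨A, hA, hgood⟩ := goodH
  obtain ⟨g1, g2, -, -⟩ := hgood q χ H
  rcases hs.lt_or_eq with h1 | h1
  · exact F_ne_zero _ _ (lg_bb χ (uh_chi q χ H)) (LH χ) g2 s h1
  · obtain ⟨G, hG, sG⟩ := chi_sq q χ H
    have ht : s.im ≠ 0 := by
      intro h
      apply hs1
      apply Complex.ext
      · rw [← h1, Complex.one_re]
      · rw [h, Complex.one_im]
    have h3 := Pool.Agent.H82R3.AR.nz_line_of lg_bb lam_eq lam_one F_ne_zero F_ld χ
      (uh_chi q χ H) (LH χ) G g1 hG g2 sG s.im ht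
    have h4 : s = ⟨1, s.im⟩ := Complex.ext h1.symm rfl
    rw [h4]
    exact h3

theorem Z4_ne {s : ℂ} (hs : 1 ≤ s.re) : Z4 s ≠ 0 := by
  unfold Z4
  exact mul_ne_zero (riemannZeta_ne_zero_of_one_le_re hs)
    (DirichletCharacter.LFunction_ne_zero_of_one_le_re x4 (Or.inl x4_ne) hs)

section
variable (cd : (q : ZI) → MulChar (RQ q) ℂ → ZI)
    (pr : (q : ZI) → MulChar (RQ q) ℂ → (ZI →* ℂ))
    (hprim : ∀ q : ZI, q ≠ 0 → ∀ χ, PrimData q χ (cd q χ) (pr q χ))

include hprim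

theorem FE0_ne {q : ZI} (hq : q ≠ 0) {s : ℂ} (hs : 1 ≤ s.re) (hs1 : s ≠ 1) :
    FE0 pr q s ≠ 0 := by
  unfold FE0 R0
  refine mul_ne_zero (Z4_ne hs) (mul_ne_zero (Cq_ne q t0_uh (by linarith)) ?_)
  rw [Finset.prod_ne_zero_iff]
  intro χ hχ
  have hH := hc_of hq hχ (hprim q hq χ)
  exact mul_ne_zero (LH_ne hH hs hs1) (Cq_ne q (uh_chi _ _ hH) (by linarith))

theorem FEk_ne {q : ZI} (hq : q ≠ 0) {k : ℕ} (hk : 1 ≤ k) {s : ℂ} (hs : 1 ≤ s.re) :
    FEk pr q k s ≠ 0 := by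
  unfold FEk
  rw [Finset.prod_ne_zero_iff]
  intro χ hχ
  rw [mem_FQk hq] at hχ
  have hH := (hprim q hq χ).hck hq k hχ
  exact mul_ne_zero (LK_ne hk hH hs) (Cq_ne q (uh_psik hH) (by linarith))

theorem PE_ne {q : ZI} (hq : q ≠ 0) {k : ℕ} (hk : 1 ≤ k) {s : ℂ} (hs : 1 ≤ s.re) :
    PE pr q k s ≠ 0 := by
  have hq' : star q ≠ 0 := fun h => hq (by rw [← star_star q, h, star_zero])
  exact mul_ne_zero (FEk_ne cd pr hprim hq hk hs) (FEk_ne cd pr hprim hq' hk hs)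

end

end Pool.Agent.V7H44.HL
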