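import Pool.Agent.V7H44.HL.Fin
import Pool.Agent.V7H44.HL.Line
import Pool.Agent.H921R2.TatePole.Dedekind

/-!
The pole at the right edge of the critical strip.
-/

set_option autoImplicit false
set_option maxHeartbeats 4000000

open NumberField IsDedekindDomain Complex Filter Topology Set
open H385 (ZI RQ im1 chiZ phiQ nrm)
open Pool.Agent.H304R3.HK (UH tc)
open Pool.Agent.Y762.HK (PrimData)
open Pool.Agent.H921R2.TatePole (below nm nm_eq two_le_nm nm_summable nm_rpow_le_half ZK ZK_tendsto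
  ZK_pos CK le_prime_sum)
open Pool.Agent.W164.RC (two2 IsRayClassField tr places_finite)

namespace Pool.Agent.V7H44.HL

theorem exp_le_inv {u : ℝ} (hu : u < 1) : Real.exp u ≤ (1 - u)⁻¹ := by
  have h1 := Real.one_sub_le_exp_neg u
  rw [← inv_inv (Real.exp u), ← Real.exp_neg]
  exact inv_anti₀ (by linarith) h1

theorem exp_le_two {u : ℝ} (hu : u ≤ 1 / 2) : Real.exp u ≤ 2 := by
  have h1 : Real.exp u ≤ (1 - u)⁻¹ := exp_le_inv (by linarith)
  have h2 : (1 - u)⁻¹ ≤ (1 / 2 : ℝ)⁻¹ := inv_anti₀ (by norm_num) (by linarith)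
  linarith

section
variable {q : ZI} {K : Type} [Field K] [NumberField K] {ι : ZI →+* 𝓞 K}
  {art : (RQ q)ˣ →* (𝓞 K ≃+* 𝓞 K)}

theorem iq_ne {q : ZI} (hq : q ≠ 0) (ι : ZI →+* 𝓞 K) : ι q ≠ 0 := by
  intro h
  have h1 : ι (q * star q) = 0 := by rw [map_mul, h, zero_mul]
  have h2 : q * star q = ((q.norm : ℤ) : ZI) := (Zsqrtd.norm_eq_mul_conj q).symm
  rw [h2, map_intCast] at h1
  have h3 : (q.norm : ℤ) = 0 := by exact_mod_cast h1
  exact hq (GaussianInt.norm_eq_zero.1 h3)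

theorem norm_fac (v : HeightOneSpectrum (𝓞 K)) {x : ℝ} (hx : 1 < x) :
    ‖(1 - ((Ideal.absNorm v.asIdeal : ℕ) : ℂ) ^ (-(x : ℂ)))⁻¹‖ = (1 - (nm v : ℝ) ^ (-x))⁻¹ := by
  have h1 : ((Ideal.absNorm v.asIdeal : ℕ) : ℂ) ^ (-(x : ℂ)) = (((nm v : ℝ) ^ (-x) : ℝ) : ℂ) := by
    rw [Complex.ofReal_cpow (Nat.cast_nonneg _)]
    push_cast
    rfl
  have h2 := nm_rpow_le_half v hx.le
  rw [h1, norm_inv, ← Complex.ofReal_one, ← Complex.ofReal_sub, Complex.norm_real,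
    Real.norm_of_nonneg (by linarith)]

variable (cd : (q : ZI) → MulChar (RQ q) ℂ → ZI)
    (pr : (q : ZI) → MulChar (RQ q) ℂ → (ZI →* ℂ))
    (hprim : ∀ q : ZI, q ≠ 0 → ∀ χ, PrimData q χ (cd q χ) (pr q χ))

include hprim

theorem FE0_lower (hq : q ≠ 0) (h2 : two2 ∣ q) (H : IsRayClassField q K ι art) :
    ∃ c : ℝ, 0 < c ∧ ∀ x : ℝ, 1 < x → 0 < ZK K x → c * ZK K x ≤ ‖FE0 pr q (x : ℂ)‖ := by
  classical
  have hfin := places_finite (K := K) (iq_ne hq ι)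
  obtain ⟨S, hS⟩ : ∃ S : Finset (HeightOneSpectrum (𝓞 K)), ∀ v, v ∈ S ↔ ι q ∈ v.asIdeal :=
    ⟨hfin.toFinset, fun v => by rw [Set.Finite.mem_toFinset]; rfl⟩
  refine ⟨(Real.exp (CK K) * 2 ^ S.card)⁻¹, by positivity, fun x hx hZ => ?_⟩
  have h1 := hasProd_K0 cd pr hprim hq h2 H (s := (x : ℂ)) (by rw [Complex.ofReal_re]; exact hx)
  obtain ⟨f, hf⟩ : ∃ f : HeightOneSpectrum (𝓞 K) → ℂ, f = fun v => if ι q ∈ v.asIdeal then 1
    else (1 - ((Ideal.absNorm v.asIdeal : ℕ) : ℂ) ^ (-(x : ℂ)))⁻¹ := ⟨_, rfl⟩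
  have h1' : HasProd f (FE0 pr q (x : ℂ)) := by rw [hf]; exact h1
  have h3 : Tendsto (fun F : Finset (HeightOneSpectrum (𝓞 K)) => ‖∏ v ∈ F, f v‖) atTop
      (𝓝 ‖FE0 pr q (x : ℂ)‖) := by
    have h3' : Tendsto (fun F : Finset (HeightOneSpectrum (𝓞 K)) => ∏ v ∈ F, f v) atTop
        (𝓝 (FE0 pr q (x : ℂ))) := by
      simpa only [HasProd, SummationFilter.unconditional_filter] using h1'
    exact h3'.norm
  have h4 : Tendsto (fun F : Finset (HeightOneSpectrum (𝓞 K)) =>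
      Real.exp (∑ v ∈ F, (nm v : ℝ) ^ (-x))) atTop
      (𝓝 (Real.exp (∑' v : HeightOneSpectrum (𝓞 K), (nm v : ℝ) ^ (-x)))) := by
    have h4' : Tendsto (fun F : Finset (HeightOneSpectrum (𝓞 K)) =>
        ∑ v ∈ F, (nm v : ℝ) ^ (-x)) atTop
        (𝓝 (∑' v : HeightOneSpectrum (𝓞 K), (nm v : ℝ) ^ (-x))) := by
      have h := (nm_summable (K := K) hx).hasSum
      simpa only [HasSum, SummationFilter.unconditional_filter] using h
    exact (Real.continuous_exp.tendsto _).comp h4'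
  have h5 : ∀ F : Finset (HeightOneSpectrum (𝓞 K)), Real.exp (∑ v ∈ F, (nm v : ℝ) ^ (-x)) ≤
      ‖∏ v ∈ F, f v‖ * 2 ^ S.card := by
    intro F
    rw [Real.exp_sum, norm_prod]
    have h6 : ∀ v ∈ F, Real.exp ((nm v : ℝ) ^ (-x)) ≤ ‖f v‖ * (if v ∈ S then 2 else 1) := by
      intro v _
      have h7 := nm_rpow_le_half v hx.le
      rw [hf]
      by_cases hv : ι q ∈ v.asIdeal
      · simp only [if_pos hv, if_pos ((hS v).2 hv), norm_one, one_mul]
        exact exp_le_two h7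
      · simp only [if_neg hv, if_neg (fun h => hv ((hS v).1 h)), mul_one]
        rw [norm_fac v hx]
        exact exp_le_inv (by linarith)
    refine (Finset.prod_le_prod (fun v _ => (Real.exp_pos _).le) h6).trans ?_
    rw [Finset.prod_mul_distrib]
    refine mul_le_mul_of_nonneg_left ?_ (Finset.prod_nonneg fun v _ => norm_nonneg _)
    rw [Finset.prod_ite, Finset.prod_const, Finset.prod_const_one, mul_one]
    refine pow_le_pow_right₀ (by norm_num) (Finset.card_le_card ?_)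
    intro v hv
    exact (Finset.mem_filter.1 hv).2
  have h7 := le_of_tendsto_of_tendsto' h4 (h3.mul_const _) h5
  have h8 := le_prime_sum (K := K) hx
  have h9 : ZK K x ≤ Real.exp (∑' v : HeightOneSpectrum (𝓞 K), (nm v : ℝ) ^ (-x)) *
      Real.exp (CK K) := by
    rw [← Real.exp_add, ← Real.log_le_iff_le_exp hZ]
    exact h8
  have h10 : ZK K x ≤ ‖FE0 pr q (x : ℂ)‖ * 2 ^ S.card * Real.exp (CK K) :=
    h9.trans (mul_le_mul_of_nonneg_right h7 (Real.exp_pos _).le)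
  rw [inv_mul_le_iff₀ (by positivity)]
  linarith

theorem G_one (hq : q ≠ 0) (h2 : two2 ∣ q) (H : IsRayClassField q K ι art) {G : ℂ → ℂ}
    (hG : Continuous G) (hG2 : ∀ s : ℂ, s ≠ 1 → (s - 1) * FE0 pr q s = G s) : G 1 ≠ 0 := by
  intro h0
  obtain ⟨c, hc, hlow⟩ := FE0_lower cd pr hprim hq h2 H
  have h1 : Tendsto (fun x : ℝ => ‖G (x : ℂ)‖) (𝓝[>] 1) (𝓝 ‖G ((1 : ℝ) : ℂ)‖) := by
    have h : Continuous (fun x : ℝ => ‖G (x : ℂ)‖) := (hG.comp Complex.continuous_ofReal).norm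
    exact (h.tendsto 1).mono_left nhdsWithin_le_nhds
  have h3 : Tendsto (fun x : ℝ => c * ((x - 1) * ZK K x)) (𝓝[>] 1)
      (𝓝 (c * dedekindZeta_residue K)) := (ZK_tendsto (K := K)).const_mul c
  have h4 : ∀ᶠ x : ℝ in 𝓝[>] 1, c * ((x - 1) * ZK K x) ≤ ‖G (x : ℂ)‖ := by
    filter_upwards [ZK_pos (K := K), self_mem_nhdsWithin] with x hx hx1
    have hx1' : 1 < x := hx1
    have hne : (x : ℂ) ≠ 1 := by
      intro h
      have : x = 1 := by exact_mod_cast h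
      linarith
    have e : ‖(x : ℂ) - 1‖ = x - 1 := by
      rw [← Complex.ofReal_one, ← Complex.ofReal_sub, Complex.norm_real,
        Real.norm_of_nonneg (by linarith)]
    rw [← hG2 x hne, norm_mul, e]
    have h5 := mul_le_mul_of_nonneg_left (hlow x hx1' hx) (show 0 ≤ x - 1 by linarith)
    linarith
  have h5 := le_of_tendsto_of_tendsto h3 h1 h4
  rw [Complex.ofReal_one, h0, norm_zero] at h5
  have h6 := mul_pos hc (dedekindZeta_residue_pos K)
  linarith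

/-- the pole at `s = 1`, and no zeros for `Re s ≥ 1` -/
theorem LT_pole (hq : q ≠ 0) (h2 : two2 ∣ q) (H : IsRayClassField q K ι art) (h : ℕ → ℕ)
    (i : ℕ) : (∃ G : ℂ → ℂ, Differentiable ℂ G ∧ G 1 ≠ 0 ∧
      ∀ s : ℂ, s ≠ 1 ∨ c0 h i = 0 → (s - 1) ^ c0 h i * LT pr q h i s = G s) ∧
    ∀ s : ℂ, 1 ≤ s.re → s ≠ 1 → LT pr q h i s ≠ 0 := by
  have hP : ∀ s : ℂ, 1 ≤ s.re →
      ∏ l ∈ Finset.range ((i + 1) / 2), PE pr q (kk i l) s ^ cl h i l ≠ 0 := by
    intro s hs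
    rw [Finset.prod_ne_zero_iff]
    intro l _
    exact pow_ne_zero _ (PE_ne cd pr hprim hq (kk_pos i l) hs)
  constructor
  · obtain ⟨G, hG, hG2⟩ := FE0_entire cd pr hprim hq
    have hG1 := G_one cd pr hprim hq h2 H hG.continuous hG2
    refine ⟨fun s => G s ^ c0 h i *
      ∏ l ∈ Finset.range ((i + 1) / 2), PE pr q (kk i l) s ^ cl h i l,
      (hG.pow _).mul (PP_diff cd pr hprim hq h i), ?_, fun s hs => ?_⟩
    · exact mul_ne_zero (pow_ne_zero _ hG1) (hP 1 (by simp))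
    · show (s - 1) ^ c0 h i * LT pr q h i s = G s ^ c0 h i *
        ∏ l ∈ Finset.range ((i + 1) / 2), PE pr q (kk i l) s ^ cl h i l
      unfold LT
      by_cases hc : c0 h i = 0
      · rw [hc]
        simp
      · rw [← hG2 s (hs.resolve_right hc), mul_pow]
        ring
  · intro s hs hs1
    exact mul_ne_zero (pow_ne_zero _ (FE0_ne cd pr hprim hq hs hs1)) (hP s hs)

end

end Pool.Agent.V7H44.HL
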