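import Pool.Agent.V7H44.HL.Gen
import Pool.Agent.W164.RC.Imp
import Pool.Agent.W354.PK.Defs
import Pool.Agent.TH243.CYC.Conv
import Pool.Agent.H370R2.Local
import Pool.Agent.H385R2.LocalU

/-!
The zeta function of `ℚ(i)`: Euler product, continuation, number of zeros.
-/

set_option autoImplicit false

open Complex Filter Topology Set
open H370 (zset mult NN Nd Ns)

namespace Pool.Agent.V7H44.HL

open H385 (ZI nrm)
open Pool.Agent.H304R3.HK (tc UH bb ee)
open Pool.Agent.W164.RC (Ip dg cp epf Tq Cq two2 local_poly local_two Ip_one Ip_three mem_Tq cp_one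
  epf_eq)
open Pool.Agent.W354.PK (psik)
open Pool.Agent.W354.HW (cnt strip line NN_eq zset_eq)

/-- the trivial character, zero at zero -/
noncomputable def t0 : ZI →* ℂ := psik 0 1

theorem t0_apply (a : ZI) : t0 a = if a = 0 then 0 else 1 := by
  show (if a = 0 then (0 : ℂ) else (1 : ZI →* ℂ) a * (tc a / (‖tc a‖ : ℂ)) ^ 0) = _
  simp

theorem t0_ne {a : ZI} (h : a ≠ 0) : t0 a = 1 := by rw [t0_apply, if_neg h]

theorem t0_uh : UH t0 where
  h0 := by rw [t0_apply, if_pos rfl]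
  hb a := by
    rw [t0_apply]
    split_ifs <;> simp
  hi := t0_ne (by decide)

/-- the character modulo four -/
noncomputable def x4 : DirichletCharacter ℂ 4 := ZMod.χ₄.ringHomComp (Int.castRingHom ℂ)

theorem x4_apply (n : ℕ) : x4 (n : ZMod 4) = ((ZMod.χ₄ (n : ZMod 4) : ℤ) : ℂ) := by
  unfold x4
  rw [MulChar.ringHomComp_apply]
  rfl

theorem x4_ne : x4 ≠ 1 := by
  intro h
  have h1 : x4 ((3 : ℕ) : ZMod 4) = (1 : DirichletCharacter ℂ 4) ((3 : ℕ) : ZMod 4) := by rw [h]
  rw [x4_apply, ZMod.χ₄_nat_three_mod_four (by norm_num), MulChar.one_apply (by decide)] at h1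
  norm_num at h1

/-- the zeta function of `ℚ(i)` -/
noncomputable def Z4 (s : ℂ) : ℂ := riemannZeta s * DirichletCharacter.LFunction x4 s

theorem zeta_an {s : ℂ} (h : s ≠ 1) : AnalyticAt ℂ riemannZeta s :=
  DifferentiableOn.analyticAt (s := {1}ᶜ)
    (fun _ hz => (differentiableAt_riemannZeta hz).differentiableWithinAt)
    (isOpen_compl_singleton.mem_nhds h)

theorem L4_diff : Differentiable ℂ (DirichletCharacter.LFunction x4) :=
  DirichletCharacter.differentiable_LFunction x4_ne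

theorem Z4_an {s : ℂ} (h : s ≠ 1) : AnalyticAt ℂ Z4 s := (zeta_an h).mul (L4_diff.analyticAt s)

/-- `(s - 1) ζ(s)` -/
noncomputable def Z1 : ℂ → ℂ := Function.update (fun s => (s - 1) * riemannZeta s) 1 1

theorem Z1_one : Z1 1 = 1 := by simp [Z1]

theorem Z1_ne {s : ℂ} (hs : s ≠ 1) : Z1 s = (s - 1) * riemannZeta s := by
  rw [Z1, Function.update_of_ne hs]

theorem Z1_an : AnalyticAt ℂ Z1 1 := by
  apply Complex.analyticAt_of_differentiable_on_punctured_nhds_of_continuousAt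
  · filter_upwards [self_mem_nhdsWithin] with t ht
    have h1 : DifferentiableAt ℂ (fun s : ℂ => (s - 1) * riemannZeta s) t :=
      (differentiableAt_id.sub_const 1).mul (differentiableAt_riemannZeta ht)
    refine h1.congr_of_eventuallyEq ?_
    filter_upwards [isOpen_ne.mem_nhds ht] with u hu
    exact Z1_ne hu
  · rw [Z1, continuousAt_update_same]
    exact riemannZeta_residue_one

theorem Z1_diff : Differentiable ℂ Z1 := by
  intro s
  by_cases hs : s = 1
  · subst hs
    exact Z1_an.differentiableAt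
  · have h1 : DifferentiableAt ℂ (fun s : ℂ => (s - 1) * riemannZeta s) s :=
      (differentiableAt_id.sub_const 1).mul (differentiableAt_riemannZeta hs)
    refine h1.congr_of_eventuallyEq ?_
    filter_upwards [isOpen_ne.mem_nhds hs] with u hu
    exact Z1_ne hu

/-- `(s - 1)` times the zeta function of `ℚ(i)` -/
noncomputable def Z4e (s : ℂ) : ℂ := Z1 s * DirichletCharacter.LFunction x4 s

theorem Z4e_diff : Differentiable ℂ Z4e := Z1_diff.mul L4_diff

theorem Z4e_eq {s : ℂ} (hs : s ≠ 1) : Z4e s = (s - 1) * Z4 s := by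
  unfold Z4e Z4
  rw [Z1_ne hs]
  ring

theorem Z4e_one : Z4e 1 ≠ 0 := by
  unfold Z4e
  rw [Z1_one, one_mul]
  exact DirichletCharacter.LFunction_ne_zero_of_one_le_re x4 (Or.inl x4_ne) (by simp)

theorem NF_zeta {T : ℝ} (hT : 1 ≤ T) : NF riemannZeta (strip T (2 * T)) := by
  refine ⟨fun s hs => zeta_an (ne_one (by linarith) hs), fun s hs => ?_, ?_⟩
  · have hpre : IsPreconnected ({1}ᶜ : Set ℂ) :=
      (isConnected_compl_singleton_of_one_lt_rank (by rw [Complex.rank_real_complex]; norm_num)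
        1).isPreconnected
    have h2 : riemannZeta 2 ≠ 0 := riemannZeta_ne_zero_of_one_lt_re (by norm_num)
    exact H370.Loc.order_ne_top (K := {1}ᶜ) hpre (fun z hz => zeta_an hz)
      (show (2 : ℂ) ∈ ({1}ᶜ : Set ℂ) by simp) h2 (ne_one (by linarith) hs)
  · rw [← zset_eq]
    have h := Pool.Agent.TH243.CYC.finite_zset (q := 1) (1 : DirichletCharacter ℂ 1) T (2 * T) hT
    rwa [DirichletCharacter.LFunction_modOne_eq] at h

theorem NF_L4 {T : ℝ} (hT : 1 ≤ T) :
    NF (DirichletCharacter.LFunction x4) (strip T (2 * T)) := by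
  refine ⟨fun s _ => L4_diff.analyticAt s, fun s _ => ?_, ?_⟩
  · have h2 : DirichletCharacter.LFunction x4 2 ≠ 0 :=
      DirichletCharacter.LFunction_ne_zero_of_one_le_re x4 (Or.inl x4_ne) (by norm_num)
    exact H370.Loc.order_ne_top (K := Set.univ) isPreconnected_univ
      (fun z _ => L4_diff.analyticAt z) (Set.mem_univ _) h2 (Set.mem_univ s)
  · rw [← zset_eq]
    exact Pool.Agent.TH243.CYC.finite_zset (q := 4) x4 T (2 * T) hT

theorem NF_Z4 {T : ℝ} (hT : 1 ≤ T) : NF Z4 (strip T (2 * T)) :=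
  ((NF_zeta hT).mul (NF_L4 hT)).1

/-- the number of zeros of a Dirichlet L-function -/
theorem NN_dir : ∃ C : ℝ, 0 < C ∧ ∀ (q : ℕ) [NeZero q] (χ : DirichletCharacter ℂ q) (T : ℝ), 3 ≤ T →
    (NN (DirichletCharacter.LFunction χ) T (2 * T) : ℝ) ≤ C * T * Real.log (q * (2 * T)) := by
  obtain ⟨A, hA, hgood⟩ := H385.good_LF
  obtain ⟨C, hC, hc⟩ := H385.zcount_long A hA
  refine ⟨C, hC, fun q _ χ T hT => ?_⟩
  rw [(Pool.Agent.TH243.CYC.counts χ T (2 * T) (by linarith)).1]
  have hc1 : (1 : ℝ) ≤ (χ.conductor : ℝ) := by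
    exact_mod_cast Nat.one_le_iff_ne_zero.mpr χ.conductor_ne_zero
  have h := hc χ.conductor _ _ hc1 (hgood q χ (NeZero.pos q)) T (2 * T) hT (by linarith)
  have hle : (χ.conductor : ℝ) ≤ q := by
    exact_mod_cast Nat.le_of_dvd (NeZero.pos q) χ.conductor_dvd_level
  have e : 2 * T - T = T := by ring
  rw [e] at h
  refine h.trans ?_
  refine mul_le_mul_of_nonneg_left (Real.log_le_log (by positivity) ?_) (by positivity)
  exact mul_le_mul_of_nonneg_right hle (by linarith)

/-- the number of zeros of the zeta function of `ℚ(i)` -/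
theorem cnt_Z4 : ∃ C : ℝ, 0 < C ∧ ∀ T : ℝ, 3 ≤ T →
    (cnt Z4 (strip T (2 * T)) : ℝ) ≤ C * T * Real.log (8 * T) := by
  obtain ⟨C, hC, h⟩ := NN_dir
  refine ⟨2 * C, by positivity, fun T hT => ?_⟩
  have h1 := h 1 (1 : DirichletCharacter ℂ 1) T hT
  have h2 := h 4 x4 T hT
  rw [DirichletCharacter.LFunction_modOne_eq, NN_eq] at h1
  rw [NN_eq] at h2
  have h3 : cnt Z4 (strip T (2 * T)) = cnt riemannZeta (strip T (2 * T)) +
      cnt (DirichletCharacter.LFunction x4) (strip T (2 * T)) :=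
    ((NF_zeta (by linarith)).mul (NF_L4 (by linarith))).2
  rw [h3]
  push_cast at h1 h2 ⊢
  have e1 : Real.log (1 * (2 * T)) ≤ Real.log (8 * T) :=
    Real.log_le_log (by positivity) (by linarith)
  have e2 : Real.log (4 * (2 * T)) = Real.log (8 * T) := by congr 1; ring
  rw [e2] at h2
  have h4 : C * T * Real.log (1 * (2 * T)) ≤ C * T * Real.log (8 * T) :=
    mul_le_mul_of_nonneg_left e1 (by positivity)
  linarith

/-- the local factor -/
theorem local_Z4 {p : ℕ} (hp : p.Prime) (X : ℂ) :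
    1 - bb t0 p * X + ee t0 p * X ^ 2 = (1 - X) * (1 - x4 (p : ZMod 4) * X) := by
  rcases hp.eq_two_or_odd with h | h
  · subst h
    rw [local_two t0_uh, t0_ne (by decide), x4_apply]
    have : ZMod.χ₄ ((2 : ℕ) : ZMod 4) = 0 := by decide
    rw [this]
    simp
  · have h4 : p % 4 = 1 ∨ p % 4 = 3 := by omega
    have hp2 : p ≠ 2 := by omega
    rw [local_poly t0_uh hp hp2, x4_apply]
    rcases h4 with h1 | h3
    · obtain ⟨x, hne', hx, hxx, hn, hI⟩ := Ip_one hp h1
      have hd : dg p = 1 := by unfold dg; rw [if_pos h1]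
      have hx0 : x ≠ 0 := by
        rintro rfl
        exact hne' (star_zero _).symm
      have hx1 : star x ≠ 0 := fun h => hx0 (by rw [← star_star x, h, star_zero])
      rw [hI, Finset.prod_pair hne', t0_ne hx0, t0_ne hx1, hd, ZMod.χ₄_nat_one_mod_four h1]
      push_cast
      ring
    · have hd : dg p = 2 := by unfold dg; rw [if_neg (by omega)]
      have hx0 : (-(p : ZI)) ≠ 0 := by
        rw [Ne, neg_eq_zero]
        exact_mod_cast hp.ne_zero
      rw [Ip_three h3, Finset.prod_singleton, t0_ne hx0, hd, ZMod.χ₄_nat_three_mod_four h3]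
      push_cast
      ring

/-- the Euler product -/
theorem hasProd_Z4 {s : ℂ} (hs : 1 < s.re) : HasProd (fun p : Nat.Primes =>
    (1 - bb t0 p * ((p : ℕ) : ℂ) ^ (-s) + ee t0 p * (((p : ℕ) : ℂ) ^ (-s)) ^ 2)⁻¹) (Z4 s) := by
  have h1 := riemannZeta_eulerProduct_hasProd hs
  have h2 := DirichletCharacter.LSeries_eulerProduct_hasProd x4 hs
  have h3 := h1.mul h2
  rw [← DirichletCharacter.LFunction_eq_LSeries x4 hs] at h3
  have e : (fun p : Nat.Primes =>
      (1 - bb t0 p * ((p : ℕ) : ℂ) ^ (-s) + ee t0 p * (((p : ℕ) : ℂ) ^ (-s)) ^ 2)⁻¹) =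
      fun p : Nat.Primes => (1 - ((p : ℕ) : ℂ) ^ (-s))⁻¹ *
        (1 - x4 ((p : ℕ) : ZMod 4) * ((p : ℕ) : ℂ) ^ (-s))⁻¹ := by
    funext p
    rw [local_Z4 p.2, mul_inv]
  rw [e]
  exact h3

/-- the Euler product without the primes dividing `q` -/
theorem hasProd_Z4q {q : ZI} (hq : q ≠ 0) (h2 : two2 ∣ q) {s : ℂ} (hs : 1 < s.re) :
    HasProd (fun p : Nat.Primes => epf q t0 s p) (Z4 s * Cq q t0 s) := by
  have h3 : HasProd (fun p : Nat.Primes => cp q t0 s p) (Cq q t0 s) := by
    unfold Cq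
    apply hasProd_prod_of_ne_finset_one
    intro p hp
    rw [mem_Tq hq] at hp
    exact cp_one h2 p.2 hp t0 s
  have h4 := (hasProd_Z4 hs).mul h3
  have e : (fun p : Nat.Primes => epf q t0 s p) = fun p : Nat.Primes =>
      (1 - bb t0 p * ((p : ℕ) : ℂ) ^ (-s) + ee t0 p * (((p : ℕ) : ℂ) ^ (-s)) ^ 2)⁻¹ *
        cp q t0 s p := funext fun p => (epf_eq q t0_uh p.2 (by linarith)).symm
  rw [e]
  exact h4

end Pool.Agent.V7H44.HL
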